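import Pool.Agent.H92.OL.Top

/-!
# All children of `u` except `c` are leaves
-/

namespace Pool.Agent.H92.OL

open Pool.Agent.H67.Lob (sg IsPar)

variable {V : Type} [DecidableEq V]

variable {par : V → V} {v : V} {A : Finset V} {f : V → ℤ} {dep : V → ℕ}

theorem three_card {u c : V} (hA1 : v ∈ A) (hA2 : u ∈ A) (hA3 : c ∈ A) (h1 : u ≠ v) (h2 : c ≠ v)
    (h3 : c ≠ u) : 3 ≤ A.card :=
  Finset.two_lt_card_iff.2 ⟨v, u, c, hA1, hA2, hA3, h1.symm, h2.symm, h3.symm⟩

theorem card_le_compl [Fintype V] {L : Finset V} (hAL : ∀ x, x ∈ A → x ∉ L) :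
    A.card ≤ (Lᶜ).card := by
  apply Finset.card_le_card
  intro x hx
  rw [Finset.mem_compl]
  exact hAL x hx

theorem Setup.hcu {u c : V} {L U : Finset V} (hs : Setup par dep v u c L U) : c ≠ u := by
  intro h
  have h1 := hs.hpc
  rw [h, hs.hpu] at h1
  exact hs.huv h1.symm

theorem caseA [Fintype V] {u c : V} {L U : Finset V} (hs : Setup par dep v u c L U)
    (h0 : ∀ x, x ≠ v → par x = u → x ≠ c → ∀ z, z ≠ v → par z ≠ x)
    (hLA : 2 ^ (Lᶜ).card ≤ L.card) :
    ∃ F : V → ZMod (Fintype.card V - 1), Function.Surjective F ∧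
      ∀ x y, x ≠ v → y ≠ v → F x + F (par x) = F y + F (par y) → x = y := by
  have huv := hs.huv
  have hpu := hs.hpu
  have hcv := hs.hcv
  have hpc := hs.hpc
  have hcu := hs.hcu
  obtain ⟨S, hmS⟩ : ∃ S : Finset V, ∀ x, x ∈ S ↔ (x ≠ v ∧ par x ≠ v ∧ par x ≠ u) := by
    refine ⟨Finset.univ.filter (fun x => x ≠ v ∧ par x ≠ v ∧ par x ≠ u), fun x => ?_⟩
    rw [Finset.mem_filter]
    exact ⟨fun h => h.2, fun h => ⟨Finset.mem_univ _, h⟩⟩
  obtain ⟨W, hmW⟩ : ∃ W : Finset V, ∀ x, x ∈ W ↔ (x ≠ v ∧ par x = u ∧ x ≠ c) := by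
    refine ⟨Finset.univ.filter (fun x => x ≠ v ∧ par x = u ∧ x ≠ c), fun x => ?_⟩
    rw [Finset.mem_filter]
    exact ⟨fun h => h.2, fun h => ⟨Finset.mem_univ _, h⟩⟩
  obtain ⟨f, P, N, hI⟩ := phase hs.hd0 hs.hdep huv hpu hcv hpc U S
    (fun x hx => by
      obtain ⟨h1, h2, _, h4⟩ := (hs.hU x).1 hx
      exact ⟨h1, h2, h4⟩)
    (fun x hx => by
      obtain ⟨h1, h2, h3⟩ := (hmS x).1 hx
      refine ⟨h1, h2, h3, ?_⟩
      by_cases h4 : par (par x) = v
      · apply Finset.mem_union_left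
        apply Finset.mem_insert_of_mem
        rw [hs.hU]
        exact ⟨h2, h4, fun h5 => (hs.hL _ h5).2.2 x h1 rfl, h3⟩
      · by_cases h5 : par (par x) = u
        · apply Finset.mem_union_left
          by_cases h6 : par x = c
          · rw [h6]
            exact Finset.mem_insert_self _ _
          · exact absurd rfl (h0 (par x) h2 h5 h6 x h1)
        · apply Finset.mem_union_right
          rw [hmS]
          exact ⟨h2, h4, h5⟩)
  obtain ⟨T, hT⟩ : ∃ T, T = insert c (insert v U) ∪ S := ⟨_, rfl⟩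
  have hmT : ∀ x, x ∈ T ↔ ((x = c ∨ x = v ∨ x ∈ U) ∨ x ∈ S) := by
    intro x
    rw [hT, Finset.mem_union, Finset.mem_insert, Finset.mem_insert]
  rw [← hT] at hI
  have hvT : v ∈ T := (hmT v).2 (Or.inl (Or.inr (Or.inl rfl)))
  have hcT : c ∈ T := (hmT c).2 (Or.inl (Or.inl rfl))
  have huT : u ∉ T := by
    rw [hmT]
    rintro ((h | h | h) | h)
    · exact hcu h.symm
    · exact huv h
    · exact ((hs.hU u).1 h).2.2.2 rfl
    · exact ((hmS u).1 h).2.1 hpu
  have hchT : ∀ x ∈ T, x ≠ v → par x = u → x = c := by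
    intro x hx hxv he
    rw [hmT] at hx
    rcases hx with (h | h | h) | h
    · exact h
    · exact absurd h hxv
    · rw [((hs.hU x).1 h).2.1] at he
      exact absurd he.symm huv
    · exact absurd he ((hmS x).1 h).2.2
  have hM0 : (0 : ℤ) ≤ (U.card : ℤ) := Nat.cast_nonneg _
  obtain ⟨f1, k1, k2, k3, k4, k5, k6, k7, k8⟩ := top_one hM0 hI huT huv hpu hvT hcT hpc hchT
  have hhP := hI.hP
  obtain ⟨f2, l1, l2, l3, l4, l5, l6⟩ := nadd k1 k2 k3 W
    (fun z hz => by
      obtain ⟨w1, w2, w3⟩ := (hmW z).1 hz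
      refine ⟨?_, w1, ?_, ?_⟩
      · rw [Finset.mem_insert]
        rintro (h | h)
        · rw [h, hpu] at w2
          exact huv w2.symm
        · exact w3 (hchT z h w1 w2)
      · rw [w2]
        exact Finset.mem_insert_self _ _
      · rw [w2, k5]
        omega)
    (fun x _ hxv hp => by
      obtain ⟨w1, w2, w3⟩ := (hmW _).1 hp
      exact h0 (par x) w1 w2 w3 x hxv rfl)
  have hAL : ∀ x, x ∈ insert u T ∪ W ↔ x ∉ L := by
    intro x
    rw [Finset.mem_union, Finset.mem_insert, hmT]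
    constructor
    · rintro ((rfl | (rfl | rfl | h) | h) | h)
      · exact hs.huL
      · intro hxL
        have := (hs.hL x hxL).2.1
        rw [hpc] at this
        exact huv this
      · exact fun hxL => (hs.hL x hxL).1 rfl
      · exact ((hs.hU x).1 h).2.2.1
      · exact fun hxL => ((hmS x).1 h).2.1 (hs.hL x hxL).2.1
      · intro hxL
        have := (hs.hL x hxL).2.1
        rw [((hmW x).1 h).2.1] at this
        exact huv this
    · intro hxL
      by_cases h1 : x = v
      · exact Or.inl (Or.inr (Or.inl (Or.inr (Or.inl h1))))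
      · by_cases h2 : x = u
        · exact Or.inl (Or.inl h2)
        · by_cases h3 : par x = v
          · exact Or.inl (Or.inr (Or.inl (Or.inr (Or.inr ((hs.hU x).2 ⟨h1, h3, hxL, h2⟩)))))
          · by_cases h4 : par x = u
            · by_cases h5 : x = c
              · exact Or.inl (Or.inr (Or.inl (Or.inl h5)))
              · exact Or.inr ((hmW x).2 ⟨h1, h4, h5⟩)
            · exact Or.inl (Or.inr (Or.inr ((hmS x).2 ⟨h1, h3, h4⟩)))
  have hle := card_le_compl fun x hx => (hAL x).1 hx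
  have huA : u ∈ insert u T ∪ W := Finset.mem_union_left _ (Finset.mem_insert_self _ _)
  have hvA : v ∈ insert u T ∪ W := Finset.mem_union_left _ (Finset.mem_insert_of_mem hvT)
  have hcA : c ∈ insert u T ∪ W := Finset.mem_union_left _ (Finset.mem_insert_of_mem hcT)
  refine finish_all hs l1 hAL ?_ ?_ (three_card hvA huA hcA huv hcv hcu) ?_
  · rw [l4 v (Finset.mem_insert_of_mem hvT), k8]
  · exact bd_mono (by norm_num) (l6 2 (by norm_num) k7)
  · exact le_trans (Nat.pow_le_pow_right (by norm_num) hle) hLA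

end Pool.Agent.H92.OL
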