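import Pool.Agent.H92.OL.CaseA

/-!
# Exactly one child `c2` of `u` besides `c` has children

After all other vertices at distance at least two are labelled, the least label being `N` and the
greatest `P`, the vertex `c2` gets the label `-α`, `α = P - N + s`, `c` has the label `-s`.  The
children of `c2` are added in pairs (`pairs`), with the edge sums `N` and `P`: the new labels are
`N + α` and `P + α`, and the difference `P - N` does not change.  Then `u` gets the label
`P + s = N + α`.  If the number of children of `c2` is odd, one of them is the last vertex.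
-/

namespace Pool.Agent.H92.OL

open Pool.Agent.H67.Lob (sg IsPar)

variable {V : Type} [DecidableEq V]

variable {par : V → V} {v : V} {A : Finset V} {f : V → ℤ} {dep : V → ℕ}

/-- state while the children of `c2` are labelled -/
structure Prl (par : V → V) (v : V) (T : Finset V) (f : V → ℤ) (c2 : V) (s α P N : ℤ) : Prop where
  pl : PL par v T f
  oP : Opn par v T f P
  oN : Opn par v T f N
  oA : Opn par v T f (-α)
  hi : ∀ x ∈ T, f x ≤ P
  lo : ∀ x ∈ T, -α ≤ f x
  c2T : c2 ∈ T
  fc2 : f c2 = -α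
  hs : 0 < s
  hα : α = P - N + s
  hNP : N < P
  hαN : -α < N
  hP0 : 0 < P
  bd : BD 3 T f

theorem pairs {c2 : V} {s α : ℤ} (n : ℕ) : ∀ (T : Finset V) (f : V → ℤ) (P N : ℤ) (Y : Finset V),
    Prl par v T f c2 s α P N → Y.card = 2 * n → (∀ y ∈ Y, y ∉ T ∧ y ≠ v ∧ par y = c2) →
    (∀ x ∈ T, x ≠ v → par x ∉ Y) →
    ∃ f' P' N', Prl par v (T ∪ Y) f' c2 s α P' N' ∧ ∀ x ∈ T, f' x = f x := by
  induction n with
  | zero =>
    intro T f P N Y h hY _ _
    have h1 : Y = ∅ := Finset.card_eq_zero.1 (by omega)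
    rw [h1, Finset.union_empty]
    exact ⟨f, P, N, h, fun _ _ => rfl⟩
  | succ n ih =>
    intro T f P N Y h hY hYc hTY
    have h0 : 0 < Y.card := by omega
    obtain ⟨y1, hy1⟩ := Finset.card_pos.1 h0
    have h1 : (Y.erase y1).card = 2 * n + 1 := by
      rw [Finset.card_erase_of_mem hy1]
      omega
    have h2 : 0 < (Y.erase y1).card := by omega
    obtain ⟨y2, hy2⟩ := Finset.card_pos.1 h2
    have h3 : ((Y.erase y1).erase y2).card = 2 * n := by
      rw [Finset.card_erase_of_mem hy2]
      omega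
    have hy21 : y2 ≠ y1 := Finset.ne_of_mem_erase hy2
    have hy2Y : y2 ∈ Y := Finset.mem_of_mem_erase hy2
    obtain ⟨a1, a2, a3⟩ := hYc y1 hy1
    obtain ⟨b1, b2, b3⟩ := hYc y2 hy2Y
    have hs := h.hs
    have hα := h.hα
    have hNP := h.hNP
    have hαN := h.hαN
    have hP0 := h.hP0
    obtain ⟨zP, hzP, hzP2⟩ := h.oP.mem
    obtain ⟨zN, hzN, hzN2⟩ := h.oN.mem
    -- the first vertex
    have hch1 : ∀ x ∈ T, x ≠ v → par x ≠ y1 := fun x hx hxv he => hTY x hx hxv (he ▸ hy1)
    have hnew1 : ∀ z ∈ T, f z ≠ N + α := by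
      intro z hz he
      have := h.hi z hz
      omega
    obtain ⟨k1, k2, k3⟩ := add_leaf h.pl h.oN a1 a2 (by rw [a3]; exact h.c2T) hch1 (t := N + α)
      (by rw [a3, h.fc2]; ring) hnew1
    obtain ⟨f1, hf1⟩ : ∃ f1, f1 = Function.update f y1 (N + α) := ⟨_, rfl⟩
    rw [← hf1] at k1 k2 k3
    have hself1 : f1 y1 = N + α := by
      rw [hf1]
      exact Function.update_self _ _ _
    have hold1 : ∀ x ∈ T, f1 x = f x := by
      intro x hx
      rw [hf1]
      exact upd_mem a1 hx
    have hbd1 : BD 3 (insert y1 T) f1 := by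
      rw [hf1]
      refine bd_add (by norm_num) h.bd a1 hzN h.c2T ?_
      rw [hzN2, h.fc2, abs_neg]
      exact abs_add_le _ _
    -- the second vertex
    have hc2T1 : c2 ∈ insert y1 T := Finset.mem_insert_of_mem h.c2T
    have hy2T1 : y2 ∉ insert y1 T := by
      rw [Finset.mem_insert]
      rintro (h5 | h5)
      · exact hy21 h5
      · exact b1 h5
    have hch2 : ∀ x ∈ insert y1 T, x ≠ v → par x ≠ y2 := by
      intro x hx hxv he
      rcases Finset.mem_insert.1 hx with rfl | hx'
      · rw [a3] at he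
        rw [← he] at b1
        exact b1 h.c2T
      · exact hTY x hx' hxv (he ▸ hy2Y)
    have hnew2 : ∀ z ∈ insert y1 T, f1 z ≠ P + α := by
      intro z hz he
      rcases Finset.mem_insert.1 hz with rfl | hz'
      · rw [hself1] at he
        omega
      · rw [hold1 z hz'] at he
        have := h.hi z hz'
        omega
    have fc21 : f1 c2 = -α := by rw [hold1 c2 h.c2T, h.fc2]
    obtain ⟨l1, l2, l3⟩ := add_leaf k1 (k3 P h.oP (by omega)) hy2T1 b2
      (by rw [b3]; exact hc2T1) hch2 (t := P + α) (by rw [b3, fc21]; ring) hnew2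
    obtain ⟨f2, hf2⟩ : ∃ f2, f2 = Function.update f1 y2 (P + α) := ⟨_, rfl⟩
    rw [← hf2] at l1 l2 l3
    have hself2 : f2 y2 = P + α := by
      rw [hf2]
      exact Function.update_self _ _ _
    have hold2 : ∀ x ∈ insert y1 T, f2 x = f1 x := by
      intro x hx
      rw [hf2]
      exact upd_mem hy2T1 hx
    have hbd2 : BD 3 (insert y2 (insert y1 T)) f2 := by
      rw [hf2]
      refine bd_add (by norm_num) hbd1 hy2T1 (Finset.mem_insert_of_mem hzP) hc2T1 ?_
      rw [hold1 zP hzP, hzP2, fc21, abs_neg]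
      exact abs_add_le _ _
    have hst : Prl par v (insert y2 (insert y1 T)) f2 c2 s α (P + α) (N + α) := by
      refine ⟨l1, l2, l3 _ k2 (by omega), l3 _ (k3 _ h.oA (by omega)) (by omega), ?_, ?_,
        Finset.mem_insert_of_mem hc2T1, by rw [hold2 c2 hc2T1, fc21], hs, by omega, by omega,
        by omega, by omega, hbd2⟩
      · intro x hx
        rcases Finset.mem_insert.1 hx with rfl | hx'
        · rw [hself2]
        · rw [hold2 x hx']
          rcases Finset.mem_insert.1 hx' with rfl | hx''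
          · rw [hself1]
            omega
          · rw [hold1 x hx'']
            have := h.hi x hx''
            omega
      · intro x hx
        rcases Finset.mem_insert.1 hx with rfl | hx'
        · rw [hself2]
          omega
        · rw [hold2 x hx']
          rcases Finset.mem_insert.1 hx' with rfl | hx''
          · rw [hself1]
            omega
          · rw [hold1 x hx'']
            exact h.lo x hx''
    have hYc' : ∀ y ∈ (Y.erase y1).erase y2,
        y ∉ insert y2 (insert y1 T) ∧ y ≠ v ∧ par y = c2 := by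
      intro y hy
      rw [Finset.mem_erase, Finset.mem_erase] at hy
      obtain ⟨c1, c2', c3⟩ := hYc y hy.2.2
      refine ⟨?_, c2', c3⟩
      rw [Finset.mem_insert, Finset.mem_insert]
      rintro (h5 | h5 | h5)
      · exact hy.1 h5
      · exact hy.2.1 h5
      · exact c1 h5
    have hTY' : ∀ x ∈ insert y2 (insert y1 T), x ≠ v → par x ∉ (Y.erase y1).erase y2 := by
      intro x hx hxv hp
      rw [Finset.mem_erase, Finset.mem_erase] at hp
      rcases Finset.mem_insert.1 hx with rfl | hx'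
      · rw [b3] at hp
        exact (hYc c2 hp.2.2).1 h.c2T
      · rcases Finset.mem_insert.1 hx' with rfl | hx''
        · rw [a3] at hp
          exact (hYc c2 hp.2.2).1 h.c2T
        · exact hTY x hx'' hxv hp.2.2
    obtain ⟨f3, P', N', hf3, hold3⟩ := ih _ f2 _ _ _ hst h3 hYc' hTY'
    have e1 : insert y2 (insert y1 T) ∪ (Y.erase y1).erase y2 = T ∪ Y := by
      ext x
      rw [Finset.mem_union, Finset.mem_insert, Finset.mem_insert, Finset.mem_erase,
        Finset.mem_erase, Finset.mem_union]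
      constructor
      · rintro ((rfl | rfl | h5) | h5)
        · exact Or.inr hy2Y
        · exact Or.inr hy1
        · exact Or.inl h5
        · exact Or.inr h5.2.2
      · rintro (h5 | h5)
        · exact Or.inl (Or.inr (Or.inr h5))
        · by_cases h6 : x = y2
          · exact Or.inl (Or.inl h6)
          · by_cases h7 : x = y1
            · exact Or.inl (Or.inr (Or.inl h7))
            · exact Or.inr ⟨h6, h7, h5⟩
    refine ⟨f3, P', N', e1 ▸ hf3, ?_⟩
    intro x hx
    rw [hold3 x (Finset.mem_insert_of_mem (Finset.mem_insert_of_mem hx)),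
      hold2 x (Finset.mem_insert_of_mem hx), hold1 x hx]

theorem caseB [Fintype V] {u c c2 : V} {L U : Finset V} (hs : Setup par dep v u c L U)
    (hcch : ∃ y, y ≠ v ∧ par y = c) (hc2v : c2 ≠ v) (hpc2 : par c2 = u) (hc2c : c2 ≠ c)
    (h0 : ∀ x, x ≠ v → par x = u → x ≠ c → x ≠ c2 → ∀ z, z ≠ v → par z ≠ x)
    (hLA : 2 ^ (Lᶜ).card ≤ L.card) :
    ∃ F : V → ZMod (Fintype.card V - 1), Function.Surjective F ∧
      ∀ x y, x ≠ v → y ≠ v → F x + F (par x) = F y + F (par y) → x = y := by
  have huv := hs.huv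
  have hpu := hs.hpu
  have hcv := hs.hcv
  have hpc := hs.hpc
  have hcu := hs.hcu
  have hc2u : c2 ≠ u := by
    intro h
    rw [h, hpu] at hpc2
    exact huv hpc2.symm
  obtain ⟨S, hmS⟩ : ∃ S : Finset V, ∀ x, x ∈ S ↔ (x ≠ v ∧ par x ≠ v ∧ par x ≠ u ∧ par x ≠ c2) := by
    refine ⟨Finset.univ.filter (fun x => x ≠ v ∧ par x ≠ v ∧ par x ≠ u ∧ par x ≠ c2), fun x => ?_⟩
    rw [Finset.mem_filter]
    exact ⟨fun h => h.2, fun h => ⟨Finset.mem_univ _, h⟩⟩
  obtain ⟨D, hmD⟩ : ∃ D : Finset V, ∀ x, x ∈ D ↔ (x ≠ v ∧ par x = c2) := by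
    refine ⟨Finset.univ.filter (fun x => x ≠ v ∧ par x = c2), fun x => ?_⟩
    rw [Finset.mem_filter]
    exact ⟨fun h => h.2, fun h => ⟨Finset.mem_univ _, h⟩⟩
  obtain ⟨W, hmW⟩ : ∃ W : Finset V, ∀ x, x ∈ W ↔ (x ≠ v ∧ par x = u ∧ x ≠ c ∧ x ≠ c2) := by
    refine ⟨Finset.univ.filter (fun x => x ≠ v ∧ par x = u ∧ x ≠ c ∧ x ≠ c2), fun x => ?_⟩
    rw [Finset.mem_filter]
    exact ⟨fun h => h.2, fun h => ⟨Finset.mem_univ _, h⟩⟩
  have hDch : ∀ y ∈ D, ∀ z, z ≠ v → par z ≠ y := fun y hy =>
    hs.hst c2 hc2v hpc2 hc2c y ((hmD y).1 hy).1 ((hmD y).1 hy).2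
  have hWch : ∀ y ∈ W, ∀ z, z ≠ v → par z ≠ y := by
    intro y hy
    obtain ⟨h1, h2, h3, h4⟩ := (hmW y).1 hy
    exact h0 y h1 h2 h3 h4
  obtain ⟨f, P, N, hI⟩ := phase hs.hd0 hs.hdep huv hpu hcv hpc U S
    (fun x hx => by
      obtain ⟨h1, h2, _, h4⟩ := (hs.hU x).1 hx
      exact ⟨h1, h2, h4⟩)
    (fun x hx => by
      obtain ⟨h1, h2, h3, h3'⟩ := (hmS x).1 hx
      refine ⟨h1, h2, h3, ?_⟩
      by_cases h4 : par (par x) = v
      · apply Finset.mem_union_left
        apply Finset.mem_insert_of_mem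
        rw [hs.hU]
        exact ⟨h2, h4, fun h5 => (hs.hL _ h5).2.2 x h1 rfl, h3⟩
      · by_cases h5 : par (par x) = u
        · apply Finset.mem_union_left
          by_cases h6 : par x = c
          · rw [h6]
            exact Finset.mem_insert_self _ _
          · exact absurd rfl (h0 (par x) h2 h5 h6 h3' x h1)
        · apply Finset.mem_union_right
          rw [hmS]
          refine ⟨h2, h4, h5, fun h6 => ?_⟩
          exact hDch (par x) ((hmD _).2 ⟨h2, h6⟩) x h1 rfl)
  obtain ⟨T, hT⟩ : ∃ T, T = insert c (insert v U) ∪ S := ⟨_, rfl⟩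
  have hmT : ∀ x, x ∈ T ↔ ((x = c ∨ x = v ∨ x ∈ U) ∨ x ∈ S) := by
    intro x
    rw [hT, Finset.mem_union, Finset.mem_insert, Finset.mem_insert]
  rw [← hT] at hI
  have hvT : v ∈ T := (hmT v).2 (Or.inl (Or.inr (Or.inl rfl)))
  have hcT : c ∈ T := (hmT c).2 (Or.inl (Or.inl rfl))
  have huT : u ∉ T := by
    rw [hmT]
    rintro ((h | h | h) | h)
    · exact hcu h.symm
    · exact huv h
    · exact ((hs.hU u).1 h).2.2.2 rfl
    · exact ((hmS u).1 h).2.1 hpu
  have hchT : ∀ x ∈ T, x ≠ v → par x = u → x = c := by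
    intro x hx hxv he
    rw [hmT] at hx
    rcases hx with (h | h | h) | h
    · exact h
    · exact absurd h hxv
    · rw [((hs.hU x).1 h).2.1] at he
      exact absurd he.symm huv
    · exact absurd he ((hmS x).1 h).2.2.1
  have hc2T : c2 ∉ T := fun h => hc2c (hchT c2 h hc2v hpc2)
  have hchT2 : ∀ x ∈ T, x ≠ v → par x ≠ c2 := by
    intro x hx hxv he
    rw [hmT] at hx
    rcases hx with (h | h | h) | h
    · rw [h, hpc] at he
      exact hc2u he.symm
    · exact hxv h
    · rw [((hs.hU x).1 h).2.1] at he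
      exact hc2v he.symm
    · exact ((hmS x).1 h).2.2.2 he
  have hM0 : (0 : ℤ) ≤ (U.card : ℤ) := Nat.cast_nonneg _
  obtain ⟨M, hMdef⟩ : ∃ M : ℤ, M = (U.card : ℤ) := ⟨_, rfl⟩
  rw [← hMdef] at hI hM0
  -- a child of `c` shows that `P` is the greatest label
  obtain ⟨y0, hy0v, hpy0⟩ := hcch
  have hy0T : y0 ∈ T := by
    rw [hmT]
    refine Or.inr ((hmS y0).2 ⟨hy0v, ?_, ?_, ?_⟩)
    · rw [hpy0]
      exact hcv
    · rw [hpy0]
      exact hcu
    · rw [hpy0]
      exact hc2c.symm
  have hfc := hI.fc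
  have hhP := hI.hP
  have hhN := hI.hN
  have hP1 : M + 1 ≤ P := by
    have h1 := hI.ch y0 hy0T hy0v (by rw [hpy0]; exact hcT) (by rw [hpy0, hfc]; omega)
    rw [hpy0, hfc] at h1
    have h2 := hI.mx y0 hy0T
    omega
  have hhi : ∀ x ∈ T, f x ≤ P := by
    intro x hx
    have := hI.mx x hx
    omega
  obtain ⟨α, hα⟩ : ∃ α : ℤ, α = P - N + (M + 1) := ⟨_, rfl⟩
  obtain ⟨zP, hzP, hzP2⟩ := hI.oP.mem
  obtain ⟨zN, hzN, hzN2⟩ := hI.oN.mem
  -- the vertex `c2`
  have hpc2T : par c2 ∉ insert c2 T := by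
    rw [hpc2, Finset.mem_insert]
    rintro (h | h)
    · exact hc2u h.symm
    · exact huT h
  have hnewc2 : ∀ z ∈ T, f z ≠ -α := by
    intro z hz he
    have := hI.lo z hz
    omega
  obtain ⟨k1, k2, k3⟩ := add_iso hI.pl hc2T hpc2T hchT2 hnewc2
  obtain ⟨f1, hf1⟩ : ∃ f1, f1 = Function.update f c2 (-α) := ⟨_, rfl⟩
  rw [← hf1] at k1 k2 k3
  have hself1 : f1 c2 = -α := by
    rw [hf1]
    exact Function.update_self _ _ _
  have hold1 : ∀ x ∈ T, f1 x = f x := by
    intro x hx
    rw [hf1]
    exact upd_mem hc2T hx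
  have hbd1 : BD 3 (insert c2 T) f1 := by
    intro x hx
    rw [Finset.card_insert_of_notMem hc2T, pow_succ]
    have h1 := hI.bd zP hzP
    have h2 := hI.bd zN hzN
    have h3 := hI.bd c hcT
    rw [hzP2] at h1
    rw [hzN2] at h2
    rw [hfc, abs_neg] at h3
    rcases Finset.mem_insert.1 hx with rfl | hx'
    · rw [hself1, abs_neg]
      have h4 : |α| ≤ |P| + |N| + |M + 1| := by
        rw [hα]
        exact le_trans (abs_add_le _ _) (add_le_add_left (abs_sub_le' _ _) _)
      linarith
    · rw [hold1 x hx']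
      have h4 := hI.bd x hx'
      have h5 : (0 : ℤ) ≤ 2 ^ T.card := by positivity
      linarith
  have hst : Prl par v (insert c2 T) f1 c2 (M + 1) α P N := by
    refine ⟨k1, k3 P hI.oP, k3 N hI.oN, k2, ?_, ?_, Finset.mem_insert_self _ _, hself1,
      by omega, hα, by omega, by omega, by omega, hbd1⟩
    · intro x hx
      rcases Finset.mem_insert.1 hx with rfl | hx'
      · rw [hself1]
        omega
      · rw [hold1 x hx']
        exact hhi x hx'
    · intro x hx
      rcases Finset.mem_insert.1 hx with rfl | hx'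
      · rw [hself1]
      · rw [hold1 x hx']
        have := hI.lo x hx'
        omega
  -- the children of `c2`, in pairs, then `u`, then the leaves at `u`
  have main : ∀ D' : Finset V, D' ⊆ D → (∃ n, D'.card = 2 * n) →
      ∃ f' o, PL par v (insert u (insert c2 T ∪ D') ∪ W) f' ∧
        Opn par v (insert u (insert c2 T ∪ D') ∪ W) f' o ∧ f' v = 0 ∧
        BD 3 (insert u (insert c2 T ∪ D') ∪ W) f' := by
    intro D' hD' hn
    obtain ⟨n, hn⟩ := hn
    obtain ⟨f2, P', N', hst2, hold2⟩ := pairs n (insert c2 T) f1 P N D' hst hn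
      (fun y hy => by
        obtain ⟨h1, h2⟩ := (hmD y).1 (hD' hy)
        refine ⟨?_, h1, h2⟩
        rw [Finset.mem_insert]
        rintro (h3 | h3)
        · rw [h3, hpc2] at h2
          exact hc2u h2.symm
        · exact hchT2 y h3 h1 h2)
      (fun x _ hxv hp => hDch _ (hD' hp) x hxv rfl)
    obtain ⟨T2, hT2⟩ : ∃ T2, T2 = insert c2 T ∪ D' := ⟨_, rfl⟩
    rw [← hT2] at hst2 ⊢
    have hmT2 : ∀ x, x ∈ T2 ↔ ((x = c2 ∨ x ∈ T) ∨ x ∈ D') := by
      intro x
      rw [hT2, Finset.mem_union, Finset.mem_insert]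
    have hvT2 : v ∈ T2 := (hmT2 v).2 (Or.inl (Or.inr hvT))
    have hcT2 : c ∈ T2 := (hmT2 c).2 (Or.inl (Or.inr hcT))
    have hc2T2 : c2 ∈ T2 := (hmT2 c2).2 (Or.inl (Or.inl rfl))
    have huT2 : u ∉ T2 := by
      rw [hmT2]
      rintro ((h | h) | h)
      · exact hc2u h.symm
      · exact huT h
      · have := ((hmD u).1 (hD' h)).2
        rw [hpu] at this
        exact hc2v this.symm
    have hfv2 : f2 v = 0 := by
      rw [hold2 v (Finset.mem_insert_of_mem hvT), hold1 v hvT, hI.fv]
    have hfc2' : f2 c = -(M + 1) := by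
      rw [hold2 c (Finset.mem_insert_of_mem hcT), hold1 c hcT, hfc]
    have hα2 := hst2.hα
    have hP2 := hst2.hP0
    have hNP2 := hst2.hNP
    have hαN2 := hst2.hαN
    have hnewu : ∀ z ∈ T2, f2 z ≠ P' + (M + 1) := by
      intro z hz he
      have := hst2.hi z hz
      omega
    obtain ⟨m1, m2⟩ := add_top2 hst2.pl hst2.oP hst2.oN (by omega) huT2 huv hpu hfv2 hcT2 hpc
      hc2T2 hpc2 hc2c.symm
      (by
        intro x hx hxv he
        rw [hmT2] at hx
        rcases hx with (h | h) | h
        · exact Or.inr h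
        · exact Or.inl (hchT x h hxv he)
        · have := ((hmD x).1 (hD' h)).2
          rw [he] at this
          exact absurd this.symm hc2u)
      (t := P' + (M + 1)) (by rw [hfc2']; ring) (by rw [hst2.fc2, hα2]; ring) hnewu
    have m3 := m2 (-α) hst2.oA (by omega) (by omega)
    obtain ⟨f3, hf3⟩ : ∃ f3, f3 = Function.update f2 u (P' + (M + 1)) := ⟨_, rfl⟩
    rw [← hf3] at m1 m3
    have hself3 : f3 u = P' + (M + 1) := by
      rw [hf3]
      exact Function.update_self _ _ _
    have hold3 : ∀ x ∈ T2, f3 x = f2 x := by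
      intro x hx
      rw [hf3]
      exact upd_mem huT2 hx
    obtain ⟨zP', hzP', hzP2'⟩ := hst2.oP.mem
    have hbd3 : BD 3 (insert u T2) f3 := by
      rw [hf3]
      refine bd_add (by norm_num) hst2.bd huT2 hzP' hcT2 ?_
      rw [hzP2', hfc2', abs_neg]
      exact abs_add_le _ _
    obtain ⟨f4, n1, n2, n3, n4, n5, n6⟩ := nadd m1 m3
      (by
        intro x hx
        rcases Finset.mem_insert.1 hx with rfl | hx'
        · rw [hself3]
          omega
        · rw [hold3 x hx']
          exact hst2.lo x hx')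
      W
      (fun z hz => by
        obtain ⟨w1, w2, w3, w4⟩ := (hmW z).1 hz
        refine ⟨?_, w1, ?_, ?_⟩
        · rw [Finset.mem_insert, hmT2]
          rintro (h | (h | h) | h)
          · rw [h, hpu] at w2
            exact huv w2.symm
          · exact w4 h
          · exact w3 (hchT z h w1 w2)
          · have := ((hmD z).1 (hD' h)).2
            rw [w2] at this
            exact hc2u this.symm
        · rw [w2]
          exact Finset.mem_insert_self _ _
        · rw [w2, hself3]
          omega)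
      (fun x _ hxv hp => hWch _ hp x hxv rfl)
    refine ⟨f4, _, n1, n2, ?_, n6 3 (by norm_num) hbd3⟩
    rw [n4 v (Finset.mem_insert_of_mem hvT2), hold3 v hvT2, hfv2]
  have hmem : ∀ (D' : Finset V) (x : V), x ∈ insert u (insert c2 T ∪ D') ∪ W ↔
      ((x = u ∨ (x = c2 ∨ (x = c ∨ x = v ∨ x ∈ U) ∨ x ∈ S) ∨ x ∈ D') ∨ x ∈ W) := by
    intro D' x
    rw [Finset.mem_union, Finset.mem_insert, Finset.mem_union, Finset.mem_insert, hmT]
  have hall : ∀ x, x ∈ insert u (insert c2 T ∪ D) ∪ W ↔ x ∉ L := by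
    intro x
    rw [hmem]
    constructor
    · rintro ((h | (h | (h | h | h) | h) | h) | h) hxL
      · rw [h] at hxL
        exact hs.huL hxL
      · have := (hs.hL x hxL).2.1
        rw [h, hpc2] at this
        exact huv this
      · have := (hs.hL x hxL).2.1
        rw [h, hpc] at this
        exact huv this
      · exact (hs.hL x hxL).1 h
      · exact ((hs.hU x).1 h).2.2.1 hxL
      · exact ((hmS x).1 h).2.1 (hs.hL x hxL).2.1
      · have := (hs.hL x hxL).2.1
        rw [((hmD x).1 h).2] at this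
        exact hc2v this
      · have := (hs.hL x hxL).2.1
        rw [((hmW x).1 h).2.1] at this
        exact huv this
    · intro hxL
      by_cases h1 : x = v
      · exact Or.inl (Or.inr (Or.inl (Or.inr (Or.inl (Or.inr (Or.inl h1))))))
      · by_cases h2 : x = u
        · exact Or.inl (Or.inl h2)
        · by_cases h3 : par x = v
          · exact Or.inl (Or.inr (Or.inl (Or.inr (Or.inl (Or.inr (Or.inr
              ((hs.hU x).2 ⟨h1, h3, hxL, h2⟩)))))))
          · by_cases h4 : par x = u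
            · by_cases h5 : x = c
              · exact Or.inl (Or.inr (Or.inl (Or.inr (Or.inl (Or.inl h5)))))
              · by_cases h6 : x = c2
                · exact Or.inl (Or.inr (Or.inl (Or.inl h6)))
                · exact Or.inr ((hmW x).2 ⟨h1, h4, h5, h6⟩)
            · by_cases h7 : par x = c2
              · exact Or.inl (Or.inr (Or.inr ((hmD x).2 ⟨h1, h7⟩)))
              · exact Or.inl (Or.inr (Or.inl (Or.inr (Or.inr ((hmS x).2 ⟨h1, h3, h4, h7⟩)))))
  have hvA : ∀ D' : Finset V, v ∈ insert u (insert c2 T ∪ D') ∪ W := fun D' =>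
    Finset.mem_union_left _ (Finset.mem_insert_of_mem (Finset.mem_union_left _
      (Finset.mem_insert_of_mem hvT)))
  have hcA : ∀ D' : Finset V, c ∈ insert u (insert c2 T ∪ D') ∪ W := fun D' =>
    Finset.mem_union_left _ (Finset.mem_insert_of_mem (Finset.mem_union_left _
      (Finset.mem_insert_of_mem hcT)))
  have huA : ∀ D' : Finset V, u ∈ insert u (insert c2 T ∪ D') ∪ W := fun D' =>
    Finset.mem_union_left _ (Finset.mem_insert_self _ _)
  rcases Nat.even_or_odd' D.card with ⟨n, hn | hn⟩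
  · obtain ⟨f', o, p1, p2, p3, p4⟩ := main D (Finset.Subset.refl _) ⟨n, hn⟩
    refine finish_all hs p1 hall p3 p4 (three_card (hvA D) (huA D) (hcA D) huv hcv hcu) ?_
    exact le_trans (Nat.pow_le_pow_right (by norm_num) (card_le_compl fun x hx => (hall x).1 hx))
      hLA
  · have hD0 : 0 < D.card := by omega
    obtain ⟨d, hd⟩ := Finset.card_pos.1 hD0
    obtain ⟨hdv, hpd⟩ := (hmD d).1 hd
    have hcD : (D.erase d).card = 2 * n := by
      rw [Finset.card_erase_of_mem hd]
      omega
    obtain ⟨f', o, p1, p2, p3, p4⟩ := main (D.erase d) (Finset.erase_subset _ _) ⟨n, hcD⟩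
    have hdu : d ≠ u := by
      rintro rfl
      rw [hpu] at hpd
      exact hc2v hpd.symm
    have hdc2 : d ≠ c2 := by
      rintro rfl
      rw [hpc2] at hpd
      exact hdu hpd.symm
    have hdc : d ≠ c := by
      rintro rfl
      rw [hpc] at hpd
      exact hc2u hpd.symm
    have hdT : d ∉ T := fun h => hchT2 d h hdv hpd
    have hdL : d ∉ L := by
      intro h
      have := (hs.hL d h).2.1
      rw [hpd] at this
      exact hc2v this
    have hdW : d ∉ W := by
      intro h
      have := ((hmW d).1 h).2.1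
      rw [hpd] at this
      exact hc2u this
    have hall' : ∀ x, x ∈ insert u (insert c2 T ∪ D.erase d) ∪ W ↔ (x ∉ L ∧ x ≠ d) := by
      intro x
      rw [← hall]
      rw [Finset.mem_union, Finset.mem_insert, Finset.mem_union, Finset.mem_insert,
        Finset.mem_erase, Finset.mem_union, Finset.mem_insert, Finset.mem_union,
        Finset.mem_insert]
      constructor
      · rintro ((h | (h | h) | h) | h)
        · exact ⟨Or.inl (Or.inl h), fun h5 => hdu (h5 ▸ h)⟩
        · exact ⟨Or.inl (Or.inr (Or.inl (Or.inl h))), fun h5 => hdc2 (h5 ▸ h)⟩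
        · exact ⟨Or.inl (Or.inr (Or.inl (Or.inr h))), fun h5 => hdT (h5 ▸ h)⟩
        · exact ⟨Or.inl (Or.inr (Or.inr h.2)), h.1⟩
        · exact ⟨Or.inr h, fun h5 => hdW (h5 ▸ h)⟩
      · rintro ⟨((h | (h | h) | h) | h), h5⟩
        · exact Or.inl (Or.inl h)
        · exact Or.inl (Or.inr (Or.inl (Or.inl h)))
        · exact Or.inl (Or.inr (Or.inl (Or.inr h)))
        · exact Or.inl (Or.inr (Or.inr ⟨h5, h⟩))
        · exact Or.inr h
    refine finish_last hs p1 p2 hall' hdL hdv (hDch d hd) p3 p4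
      (three_card (hvA _) (huA _) (hcA _) huv hcv hcu) ?_
    have hdA : d ∉ insert u (insert c2 T ∪ D.erase d) ∪ W := fun h => ((hall' d).1 h).2 rfl
    have hle : (insert d (insert u (insert c2 T ∪ D.erase d) ∪ W)).card ≤ (Lᶜ).card := by
      apply card_le_compl
      intro x hx
      rcases Finset.mem_insert.1 hx with rfl | hx'
      · exact hdL
      · exact ((hall' x).1 hx').1
    rw [Finset.card_insert_of_notMem hdA] at hle
    exact le_trans (Nat.pow_le_pow_right (by norm_num) hle) hLA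

end Pool.Agent.H92.OL
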