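import Pool.Agent.H92.OL.Switch

/-!
# At least two children `c2`, `c3` of `u` besides `c` have children

First all vertices are labelled except `u`, its children other than `c`, their children, and the
leaves at even distance from the root.  Then `|N| ≤ P`.  Then `u` gets the label `P + s`; the leaves at
even distance from the root and the children of `u` are added below (`nphase`), and the children of
the children of `u` above (`switch`).
-/

namespace Pool.Agent.H92.OL

open Pool.Agent.H67.Lob (sg IsPar)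

variable {V : Type} [DecidableEq V]

variable {par : V → V} {v : V} {A : Finset V} {f : V → ℤ} {dep : V → ℕ}

theorem caseC [Fintype V] {u c c2 c3 x2 x3 : V} {L U : Finset V} (hs : Setup par dep v u c L U)
    (hcch : ∃ y, y ≠ v ∧ par y = c) (hc2v : c2 ≠ v) (hpc2 : par c2 = u) (hc2c : c2 ≠ c)
    (hc3v : c3 ≠ v) (hpc3 : par c3 = u) (hc3c : c3 ≠ c) (hcc : c2 ≠ c3)
    (hx2v : x2 ≠ v) (hpx2 : par x2 = c2) (hx3v : x3 ≠ v) (hpx3 : par x3 = c3)
    (hLA : 2 ^ (Lᶜ).card ≤ L.card) :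
    ∃ F : V → ZMod (Fintype.card V - 1), Function.Surjective F ∧
      ∀ x y, x ≠ v → y ≠ v → F x + F (par x) = F y + F (par y) → x = y := by
  have huv := hs.huv
  have hpu := hs.hpu
  have hcv := hs.hcv
  have hpc := hs.hpc
  have hcu := hs.hcu
  have hdu : dep u = 1 := by rw [hs.hdep u huv, hpu, hs.hd0]
  have hdc : dep c = 2 := by rw [hs.hdep c hcv, hpc, hdu]
  obtain ⟨S, hmS⟩ : ∃ S : Finset V, ∀ x, x ∈ S ↔ (x ≠ v ∧ par x ≠ v ∧ par x ≠ u ∧
      ¬ (par (par x) = u ∧ par x ≠ c) ∧ (dep x % 2 = 0 → ∃ y, y ≠ v ∧ par y = x)) := by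
    classical
    refine ⟨Finset.univ.filter (fun x => x ≠ v ∧ par x ≠ v ∧ par x ≠ u ∧
      ¬ (par (par x) = u ∧ par x ≠ c) ∧ (dep x % 2 = 0 → ∃ y, y ≠ v ∧ par y = x)), fun x => ?_⟩
    rw [Finset.mem_filter]
    exact ⟨fun h => h.2, fun h => ⟨Finset.mem_univ _, h⟩⟩
  obtain ⟨Z, hmZ⟩ : ∃ Z : Finset V, ∀ x, x ∈ Z ↔
      ((x ≠ v ∧ par x ≠ v ∧ par x ≠ u ∧ dep x % 2 = 0 ∧ ∀ y, y ≠ v → par y ≠ x) ∨
        (x ≠ v ∧ par x = u ∧ x ≠ c ∧ x ≠ c2 ∧ x ≠ c3)) := by
    classical
    refine ⟨Finset.univ.filter (fun x =>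
      ((x ≠ v ∧ par x ≠ v ∧ par x ≠ u ∧ dep x % 2 = 0 ∧ ∀ y, y ≠ v → par y ≠ x) ∨
        (x ≠ v ∧ par x = u ∧ x ≠ c ∧ x ≠ c2 ∧ x ≠ c3))), fun x => ?_⟩
    rw [Finset.mem_filter]
    exact ⟨fun h => h.2, fun h => ⟨Finset.mem_univ _, h⟩⟩
  obtain ⟨Y, hmY⟩ : ∃ Y : Finset V, ∀ x, x ∈ Y ↔
      (x ≠ v ∧ par (par x) = u ∧ par x ≠ c ∧ par x ≠ v ∧ x ≠ x2 ∧ x ≠ x3) := by
    refine ⟨Finset.univ.filter (fun x =>
      (x ≠ v ∧ par (par x) = u ∧ par x ≠ c ∧ par x ≠ v ∧ x ≠ x2 ∧ x ≠ x3)), fun x => ?_⟩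
    rw [Finset.mem_filter]
    exact ⟨fun h => h.2, fun h => ⟨Finset.mem_univ _, h⟩⟩
  -- descendants of `u` at distance two, not children of `c`
  have hstar : ∀ y, y ≠ v → par (par y) = u → par y ≠ c → par y ≠ v → ∀ z, z ≠ v → par z ≠ y :=
    fun y h1 h2 h3 h4 => hs.hst (par y) h4 h2 h3 y h1 rfl
  have hdstar : ∀ y, y ≠ v → par (par y) = u → par y ≠ v → dep y = 3 := by
    intro y h1 h2 h4
    rw [hs.hdep y h1, hs.hdep (par y) h4, h2, hdu]
  obtain ⟨f, P, N, hI⟩ := phase hs.hd0 hs.hdep huv hpu hcv hpc U S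
    (fun x hx => by
      obtain ⟨h1, h2, _, h4⟩ := (hs.hU x).1 hx
      exact ⟨h1, h2, h4⟩)
    (fun x hx => by
      obtain ⟨h1, h2, h3, h4, h5⟩ := (hmS x).1 hx
      refine ⟨h1, h2, h3, ?_⟩
      by_cases h6 : par (par x) = v
      · apply Finset.mem_union_left
        apply Finset.mem_insert_of_mem
        rw [hs.hU]
        exact ⟨h2, h6, fun h7 => (hs.hL _ h7).2.2 x h1 rfl, h3⟩
      · by_cases h7 : par (par x) = u
        · apply Finset.mem_union_left
          have h8 : par x = c := by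
            by_contra h9
            exact h4 ⟨h7, h9⟩
          rw [h8]
          exact Finset.mem_insert_self _ _
        · apply Finset.mem_union_right
          rw [hmS]
          refine ⟨h2, h6, h7, ?_, fun _ => ⟨x, h1, rfl⟩⟩
          rintro ⟨h8, h9⟩
          exact hstar (par x) h2 h8 h9 h6 x h1 rfl)
  obtain ⟨T, hT⟩ : ∃ T, T = insert c (insert v U) ∪ S := ⟨_, rfl⟩
  have hmT : ∀ x, x ∈ T ↔ ((x = c ∨ x = v ∨ x ∈ U) ∨ x ∈ S) := by
    intro x
    rw [hT, Finset.mem_union, Finset.mem_insert, Finset.mem_insert]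
  rw [← hT] at hI
  have hvT : v ∈ T := (hmT v).2 (Or.inl (Or.inr (Or.inl rfl)))
  have hcT : c ∈ T := (hmT c).2 (Or.inl (Or.inl rfl))
  have huT : u ∉ T := by
    rw [hmT]
    rintro ((h | h | h) | h)
    · exact hcu h.symm
    · exact huv h
    · exact ((hs.hU u).1 h).2.2.2 rfl
    · exact ((hmS u).1 h).2.1 hpu
  have hchT : ∀ x ∈ T, x ≠ v → par x = u → x = c := by
    intro x hx hxv he
    rw [hmT] at hx
    rcases hx with (h | h | h) | h
    · exact h
    · exact absurd h hxv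
    · rw [((hs.hU x).1 h).2.1] at he
      exact absurd he.symm huv
    · exact absurd he ((hmS x).1 h).2.2.1
  have hM0 : (0 : ℤ) ≤ (U.card : ℤ) := Nat.cast_nonneg _
  obtain ⟨M, hMdef⟩ : ∃ M : ℤ, M = (U.card : ℤ) := ⟨_, rfl⟩
  rw [← hMdef] at hI hM0
  -- a child of `c` shows that `P` is the greatest label
  obtain ⟨y0, hy0v, hpy0⟩ := hcch
  have hy0T : y0 ∈ T := by
    rw [hmT]
    refine Or.inr ((hmS y0).2 ⟨hy0v, ?_, ?_, ?_, ?_⟩)
    · rw [hpy0]
      exact hcv
    · rw [hpy0]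
      exact hcu
    · rw [hpy0]
      exact fun h => h.2 rfl
    · intro h
      exfalso
      rw [hs.hdep y0 hy0v, hpy0, hdc] at h
      omega
  have hfc := hI.fc
  have hhP := hI.hP
  have hhN := hI.hN
  have hP1 : M + 1 ≤ P := by
    have h1 := hI.ch y0 hy0T hy0v (by rw [hpy0]; exact hcT) (by rw [hpy0, hfc]; omega)
    rw [hpy0, hfc] at h1
    have h2 := hI.mx y0 hy0T
    omega
  -- a child of the vertex with the least label
  have hNP : -N ≤ P := by
    obtain ⟨x, hxT, hxN⟩ := hI.oN.mem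
    have hxv : x ≠ v := by
      rintro rfl
      rw [hI.fv] at hxN
      omega
    have hdx : dep x % 2 = 0 := by
      by_contra h
      have := hI.pos x hxT hxv h
      omega
    rw [hmT] at hxT
    rcases hxT with (h | h | h) | h
    · rw [h, hfc] at hxN
      omega
    · exact absurd h hxv
    · have h1 := hs.hdep x hxv
      rw [((hs.hU x).1 h).2.1, hs.hd0] at h1
      omega
    · obtain ⟨h1, h2, h3, h4, h5⟩ := (hmS x).1 h
      obtain ⟨y, hyv, hpy⟩ := h5 hdx
      have hyT : y ∈ T := by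
        rw [hmT]
        refine Or.inr ((hmS y).2 ⟨hyv, ?_, ?_, ?_, ?_⟩)
        · rw [hpy]
          exact hxv
        · rw [hpy]
          rintro rfl
          omega
        · rw [hpy]
          exact fun h => h3 h.1
        · intro h6
          exfalso
          rw [hs.hdep y hyv, hpy] at h6
          omega
      have h6 := hI.ch y hyT hyv (by rw [hpy, hmT]; exact Or.inr h) (by rw [hpy, hxN]; omega)
      rw [hpy, hxN] at h6
      have h7 := hI.mx y hyT
      omega
  obtain ⟨f1, k1, k2, k3, k4, k5, k6, k7, k8⟩ := top_one hM0 hI huT huv hpu hvT hcT hpc hchT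
  obtain ⟨b, hb⟩ : ∃ b : ℤ, b = P + (M + 1) := ⟨_, rfl⟩
  rw [← hb] at k4 k5
  have hmT1 : ∀ x, x ∈ insert u T ↔ (x = u ∨ x ∈ T) := fun x => Finset.mem_insert
  -- no child of a child of `u`, except the children of `c`, is labelled
  have hT1star : ∀ x ∈ insert u T, x ≠ v → par (par x) = u → par x ≠ c → par x ≠ v → False := by
    intro x hx hxv h1 h2 h3
    rw [hmT1, hmT] at hx
    rcases hx with h | (h | h | h) | h
    · rw [h] at h3
      exact h3 hpu
    · rw [h, hpc, hpu] at h1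
      exact huv h1.symm
    · exact hxv h
    · exact h3 ((hs.hU x).1 h).2.1
    · exact ((hmS x).1 h).2.2.2.1 ⟨h1, h2⟩
  have hpair : ∀ x, par x = u → x ≠ v → x ≠ c → x ∉ insert u T := by
    intro x hx hxv hxc
    rw [hmT1]
    rintro (h | h)
    · rw [h, hpu] at hx
      exact huv hx.symm
    · exact hxc (hchT x h hxv hx)
  have hZ : ∀ z ∈ Z, z ∉ insert u T ∧ z ≠ v ∧ par z ∈ insert u T ∧ 0 < f1 (par z) := by
    intro z hz
    rcases (hmZ z).1 hz with ⟨h1, h2, h3, h4, h5⟩ | ⟨h1, h2, h3, h4, h5⟩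
    · refine ⟨?_, h1, ?_⟩
      · rw [hmT1, hmT]
        rintro (h | (h | h | h) | h)
        · rw [h] at h2
          exact h2 hpu
        · rw [h] at h3
          exact h3 hpc
        · exact h1 h
        · exact h2 ((hs.hU z).1 h).2.1
        · obtain ⟨y, hy1, hy2⟩ := ((hmS z).1 h).2.2.2.2 h4
          exact h5 y hy1 hy2
      · have hdp := hs.hdep z h1
        have hpT : par z ∈ T := by
          rw [hmT]
          by_cases h6 : par (par z) = v
          · refine Or.inl (Or.inr (Or.inr ((hs.hU _).2 ⟨h2, h6, ?_, h3⟩)))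
            exact fun h7 => (hs.hL _ h7).2.2 z h1 rfl
          · by_cases h7 : par (par z) = u
            · exfalso
              have := hdstar z h1 h7 h2
              omega
            · refine Or.inr ((hmS _).2 ⟨h2, h6, h7, ?_, ?_⟩)
              · rintro ⟨h8, h9⟩
                exact hstar (par z) h2 h8 h9 h6 z h1 rfl
              · intro h8
                omega
        refine ⟨(hmT1 _).2 (Or.inr hpT), ?_⟩
        rw [k6 _ hpT]
        exact hI.pos _ hpT h2 (by omega)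
    · refine ⟨hpair z h2 h1 h3, h1, ?_, ?_⟩
      · rw [h2]
        exact Finset.mem_insert_self _ _
      · rw [h2, k5]
        omega
  have hc2Z : c2 ∉ Z := by
    rw [hmZ]
    rintro (h | h)
    · exact h.2.2.1 hpc2
    · exact h.2.2.2.1 rfl
  have hc3Z : c3 ∉ Z := by
    rw [hmZ]
    rintro (h | h)
    · exact h.2.2.1 hpc3
    · exact h.2.2.2.2 rfl
  obtain ⟨Z', A, f2, E, hZ', hA, hSw, hold2, hneg2, hbd2⟩ := nphase k1 k2 k3 k4
    (Finset.mem_insert_self u T) k5 (by omega) (by omega) hZ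
    (hpair c2 hpc2 hc2v hc2c) hc2v hpc2 hc2Z (hpair c3 hpc3 hc3v hc3c) hc3v hpc3 hc3Z hcc
    (fun x hx hxv => by
      refine ⟨fun h => ?_, fun h => ?_, fun h => ?_⟩
      · rcases (hmZ _).1 h with ⟨h1, h2, h3, h4, h5⟩ | ⟨h1, h2, h3, h4, h5⟩
        · exact h5 x hxv rfl
        · exact hT1star x hx hxv h2 h3 h1
      · exact hT1star x hx hxv (by rw [h, hpc2]) (by rw [h]; exact hc2c) (by rw [h]; exact hc2v)
      · exact hT1star x hx hxv (by rw [h, hpc3]) (by rw [h]; exact hc3c) (by rw [h]; exact hc3v))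
  have hZ'Z : Z' ⊆ Z := by
    rcases hZ' with h | ⟨z0, _, h, _⟩
    · rw [h]
    · rw [h]
      exact Finset.erase_subset _ _
  have hstarZ : ∀ y, y ≠ v → par (par y) = u → par y ≠ v → y ∉ Z := by
    intro y h1 h2 h3 hy
    rcases (hmZ y).1 hy with h | h
    · have := hdstar y h1 h2 h3
      omega
    · rw [h.2.1, hpu] at h2
      exact huv h2.symm
  have hstarA : ∀ y, y ≠ v → par (par y) = u → par y ≠ c → par y ≠ v → y ∉ A := by
    intro y h1 h2 h3 h4
    rw [hA]
    rintro (h | h | h | h)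
    · exact hT1star y h h1 h2 h3 h4
    · exact hstarZ y h1 h2 h4 (hZ'Z h)
    · rw [h, hpc2, hpu] at h2
      exact huv h2.symm
    · rw [h, hpc3, hpu] at h2
      exact huv h2.symm
  have hc2A : c2 ∈ A := (hA c2).2 (Or.inr (Or.inr (Or.inl rfl)))
  have hc3A : c3 ∈ A := (hA c3).2 (Or.inr (Or.inr (Or.inr rfl)))
  have hb0 : 0 < b := by omega
  have hx2s : par (par x2) = u := by rw [hpx2, hpc2]
  have hx2c : par x2 ≠ c := by
    rw [hpx2]
    exact hc2c
  have hx2v' : par x2 ≠ v := by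
    rw [hpx2]
    exact hc2v
  have hx3s : par (par x3) = u := by rw [hpx3, hpc3]
  have hx3c : par x3 ≠ c := by
    rw [hpx3]
    exact hc3c
  have hx3v' : par x3 ≠ v := by
    rw [hpx3]
    exact hc3v
  have hx32 : x3 ≠ x2 := by
    rintro rfl
    rw [hpx3] at hpx2
    exact hcc hpx2.symm
  obtain ⟨f3, m1, ⟨o, m2⟩, m3, m4⟩ := switch hSw hb0 hc2A hc3A
    (hstarA x2 hx2v hx2s hx2c hx2v') (hstarA x3 hx3v hx3s hx3c hx3v') hx32 hx2v hx3v hpx2 hpx3
    (Y := Y)
    (fun y hy => by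
      obtain ⟨h1, h2, h3, h4, h5, h6⟩ := (hmY y).1 hy
      have h7 : par y ∈ A ∧ f2 (par y) < 0 := by
        have hlt := hSw.lt
        have hfc2' := hSw.fc2
        by_cases e2 : par y = c2
        · rw [e2]
          exact ⟨hc2A, by omega⟩
        · by_cases e3 : par y = c3
          · rw [e3, hSw.fc3]
            exact ⟨hc3A, by omega⟩
          · have e4 : par y ∈ Z := (hmZ _).2 (Or.inr ⟨h4, h2, h3, e2, e3⟩)
            have e5 : par y ∈ Z' := by
              rcases hZ' with h | ⟨z0, _, h, hz0⟩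
              · rw [h]
                exact e4
              · rw [h, Finset.mem_erase]
                refine ⟨?_, e4⟩
                intro h8
                rw [h8] at h2
                exact hz0 h2
            exact ⟨(hA _).2 (Or.inr (Or.inl e5)), hneg2 _ e5⟩
      exact ⟨hstarA y h1 h2 h3 h4, h1, h7.1, h7.2, h5, h6⟩)
    (fun x hxv => by
      refine ⟨?_, ?_, fun h => ?_⟩
      · exact hstar x2 hx2v hx2s hx2c hx2v' x hxv
      · exact hstar x3 hx3v hx3s hx3c hx3v' x hxv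
      · obtain ⟨h1, h2, h3, h4, h5, h6⟩ := (hmY _).1 h
        exact hstar _ h1 h2 h3 h4 x hxv rfl)
  -- the labelled set
  have hcl : ∀ x, x ∉ L ↔
      (x ∈ insert u T ∨ x ∈ Z ∨ x = c2 ∨ x = c3 ∨ x = x2 ∨ x = x3 ∨ x ∈ Y) := by
    intro x
    rw [hmT1, hmT]
    constructor
    · intro hxL
      by_cases h1 : x = v
      · exact Or.inl (Or.inr (Or.inl (Or.inr (Or.inl h1))))
      · by_cases h2 : x = u
        · exact Or.inl (Or.inl h2)
        · by_cases h3 : par x = v
          · exact Or.inl (Or.inr (Or.inl (Or.inr (Or.inr ((hs.hU x).2 ⟨h1, h3, hxL, h2⟩)))))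
          · by_cases h4 : par x = u
            · by_cases h5 : x = c
              · exact Or.inl (Or.inr (Or.inl (Or.inl h5)))
              · by_cases h6 : x = c2
                · exact Or.inr (Or.inr (Or.inl h6))
                · by_cases h7 : x = c3
                  · exact Or.inr (Or.inr (Or.inr (Or.inl h7)))
                  · exact Or.inr (Or.inl ((hmZ x).2 (Or.inr ⟨h1, h4, h5, h6, h7⟩)))
            · by_cases h5 : par (par x) = u ∧ par x ≠ c
              · by_cases h6 : x = x2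
                · exact Or.inr (Or.inr (Or.inr (Or.inr (Or.inl h6))))
                · by_cases h7 : x = x3
                  · exact Or.inr (Or.inr (Or.inr (Or.inr (Or.inr (Or.inl h7)))))
                  · exact Or.inr (Or.inr (Or.inr (Or.inr (Or.inr (Or.inr
                      ((hmY x).2 ⟨h1, h5.1, h5.2, h3, h6, h7⟩))))))
              · by_cases h6 : dep x % 2 = 0 ∧ ∀ y, y ≠ v → par y ≠ x
                · exact Or.inr (Or.inl ((hmZ x).2 (Or.inl ⟨h1, h3, h4, h6.1, h6.2⟩)))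
                · refine Or.inl (Or.inr (Or.inr ((hmS x).2 ⟨h1, h3, h4, h5, fun h7 => ?_⟩)))
                  by_contra h8
                  apply h6
                  refine ⟨h7, fun y hy he => h8 ⟨y, hy, he⟩⟩
    · intro h hxL
      obtain ⟨l1, l2, l3⟩ := hs.hL x hxL
      rcases h with (h | (h | h | h) | h) | h | h | h | h | h | h
      · rw [h] at hxL
        exact hs.huL hxL
      · rw [h, hpc] at l2
        exact huv l2
      · exact l1 h
      · exact ((hs.hU x).1 h).2.2.1 hxL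
      · exact ((hmS x).1 h).2.1 l2
      · rcases (hmZ x).1 h with h5 | h5
        · exact h5.2.1 l2
        · rw [h5.2.1] at l2
          exact huv l2
      · rw [h, hpc2] at l2
        exact huv l2
      · rw [h, hpc3] at l2
        exact huv l2
      · rw [h] at l2
        exact hx2v' l2
      · rw [h] at l2
        exact hx3v' l2
      · exact ((hmY x).1 h).2.2.2.1 l2
  have hmB : ∀ x, x ∈ insert x3 (insert x2 A) ∪ Y ↔
      (x ∈ insert u T ∨ x ∈ Z' ∨ x = c2 ∨ x = c3 ∨ x = x2 ∨ x = x3 ∨ x ∈ Y) := by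
    intro x
    rw [Finset.mem_union, Finset.mem_insert, Finset.mem_insert, hA]
    tauto
  have hvB : v ∈ insert x3 (insert x2 A) ∪ Y :=
    (hmB v).2 (Or.inl (Finset.mem_insert_of_mem hvT))
  have hcB : c ∈ insert x3 (insert x2 A) ∪ Y :=
    (hmB c).2 (Or.inl (Finset.mem_insert_of_mem hcT))
  have huB : u ∈ insert x3 (insert x2 A) ∪ Y :=
    (hmB u).2 (Or.inl (Finset.mem_insert_self _ _))
  have hvA : v ∈ A := (hA v).2 (Or.inl (Finset.mem_insert_of_mem hvT))
  have hf3v : f3 v = 0 := by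
    rw [m3 v hvA, hold2 v (Finset.mem_insert_of_mem hvT), k8]
  have hbd3 : BD 3 (insert x3 (insert x2 A) ∪ Y) f3 :=
    m4 3 (by norm_num) (hbd2 3 (by norm_num) (bd_mono (by norm_num) k7))
  rcases hZ' with h | ⟨z0, hz0, h, hpz0⟩
  · have hAL : ∀ x, x ∈ insert x3 (insert x2 A) ∪ Y ↔ x ∉ L := by
      intro x
      rw [hmB, hcl, h]
    refine finish_all hs m1 hAL hf3v hbd3 (three_card hvB huB hcB huv hcv hcu) ?_
    exact le_trans (Nat.pow_le_pow_right (by norm_num) (card_le_compl fun x hx => (hAL x).1 hx))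
      hLA
  · have hz0' : z0 ≠ v ∧ par z0 ≠ v ∧ par z0 ≠ u ∧ dep z0 % 2 = 0 ∧ ∀ y, y ≠ v → par y ≠ z0 := by
      rcases (hmZ z0).1 hz0 with h5 | h5
      · exact h5
      · exact absurd h5.2.1 hpz0
    have hz0L : z0 ∉ L := fun h5 => hz0'.2.1 (hs.hL z0 h5).2.1
    have hAL : ∀ x, x ∈ insert x3 (insert x2 A) ∪ Y ↔ (x ∉ L ∧ x ≠ z0) := by
      intro x
      rw [hmB, hcl, h, Finset.mem_erase]
      constructor
      · rintro (h5 | h5 | h5 | h5 | h5 | h5 | h5)
        · exact ⟨Or.inl h5, fun h6 => (hZ z0 hz0).1 (h6 ▸ h5)⟩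
        · exact ⟨Or.inr (Or.inl h5.2), h5.1⟩
        · exact ⟨Or.inr (Or.inr (Or.inl h5)), fun h6 => hc2Z (by rw [← h5, h6]; exact hz0)⟩
        · exact ⟨Or.inr (Or.inr (Or.inr (Or.inl h5))), fun h6 => hc3Z (by rw [← h5, h6]; exact hz0)⟩
        · exact ⟨Or.inr (Or.inr (Or.inr (Or.inr (Or.inl h5)))), fun h6 =>
            hstarZ x2 hx2v hx2s hx2v' (by rw [← h5, h6]; exact hz0)⟩
        · exact ⟨Or.inr (Or.inr (Or.inr (Or.inr (Or.inr (Or.inl h5))))), fun h6 =>
            hstarZ x3 hx3v hx3s hx3v' (by rw [← h5, h6]; exact hz0)⟩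
        · refine ⟨Or.inr (Or.inr (Or.inr (Or.inr (Or.inr (Or.inr h5))))), fun h6 => ?_⟩
          obtain ⟨y1, y2, y3, y4, _, _⟩ := (hmY x).1 h5
          exact hstarZ x y1 y2 y4 (by rw [h6]; exact hz0)
      · rintro ⟨h5, h6⟩
        rcases h5 with h5 | h5 | h5 | h5 | h5 | h5 | h5
        · exact Or.inl h5
        · exact Or.inr (Or.inl ⟨h6, h5⟩)
        · exact Or.inr (Or.inr (Or.inl h5))
        · exact Or.inr (Or.inr (Or.inr (Or.inl h5)))
        · exact Or.inr (Or.inr (Or.inr (Or.inr (Or.inl h5))))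
        · exact Or.inr (Or.inr (Or.inr (Or.inr (Or.inr (Or.inl h5)))))
        · exact Or.inr (Or.inr (Or.inr (Or.inr (Or.inr (Or.inr h5)))))
    refine finish_last hs m1 m2 hAL hz0L hz0'.1 hz0'.2.2.2.2 hf3v hbd3
      (three_card hvB huB hcB huv hcv hcu) ?_
    have hzA : z0 ∉ insert x3 (insert x2 A) ∪ Y := fun h5 => ((hAL z0).1 h5).2 rfl
    have hle : (insert z0 (insert x3 (insert x2 A) ∪ Y)).card ≤ (Lᶜ).card := by
      apply card_le_compl
      intro x hx
      rcases Finset.mem_insert.1 hx with rfl | hx'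
      · exact hz0L
      · exact ((hAL x).1 hx').1
    rw [Finset.card_insert_of_notMem hzA] at hle
    exact le_trans (Nat.pow_le_pow_right (by norm_num) hle) hLA

end Pool.Agent.H92.OL
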