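import Pool.Agent.H67.Lob.Defs

/-!
# Partial labelings of a rooted tree

`par` is the parent function of a tree with root `v`.  `PL par v A f`: on the vertex set `A` the integer
labels `f` are distinct, the sums over the edges `{x, par x}` inside `A` are distinct, and every such
sum is a label.  `Opn par v A f o`: `o` is a label that is not an edge sum.
-/

namespace Pool.Agent.H92.OL

open Pool.Agent.H67.Lob (sg IsPar)

variable {V : Type} [DecidableEq V]

/-- partial labelings -/
structure PL (par : V → V) (v : V) (A : Finset V) (f : V → ℤ) : Prop where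
  inj : ∀ x ∈ A, ∀ y ∈ A, f x = f y → x = y
  injs : ∀ x ∈ A, x ≠ v → par x ∈ A → ∀ y ∈ A, y ≠ v → par y ∈ A → sg par f x = sg par f y → x = y
  sub : ∀ x ∈ A, x ≠ v → par x ∈ A → ∃ z ∈ A, f z = sg par f x

/-- `o` is a label, but not an edge sum -/
structure Opn (par : V → V) (v : V) (A : Finset V) (f : V → ℤ) (o : ℤ) : Prop where
  mem : ∃ z ∈ A, f z = o
  ns : ∀ x ∈ A, x ≠ v → par x ∈ A → sg par f x ≠ o

variable {par : V → V} {v : V} {A : Finset V} {f : V → ℤ}

/-- sums of old edges do not change -/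
theorem sg_update {w : V} {t : ℤ} {x : V} (hx : x ≠ w) (hp : par x ≠ w) :
    sg par (Function.update f w t) x = sg par f x := by
  unfold sg
  rw [Function.update_of_ne hx, Function.update_of_ne hp]

theorem upd_mem {w : V} {t : ℤ} (hw : w ∉ A) {x : V} (hx : x ∈ A) :
    Function.update f w t x = f x := by
  rw [Function.update_of_ne]
  rintro rfl
  exact hw hx

theorem upd_inj (h : PL par v A f) {w : V} {t : ℤ} (hw : w ∉ A) (ht : ∀ z ∈ A, f z ≠ t) :
    ∀ x ∈ insert w A, ∀ y ∈ insert w A,
      Function.update f w t x = Function.update f w t y → x = y := by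
  intro x hx y hy he
  rcases Finset.mem_insert.1 hx with rfl | hx'
  · rcases Finset.mem_insert.1 hy with rfl | hy'
    · rfl
    · rw [Function.update_self, upd_mem hw hy'] at he
      exact absurd he.symm (ht y hy')
  · rcases Finset.mem_insert.1 hy with rfl | hy'
    · rw [Function.update_self, upd_mem hw hx'] at he
      exact absurd he (ht x hx')
    · rw [upd_mem hw hy', upd_mem hw hx'] at he
      exact h.inj x hx' y hy' he

/-- add a new vertex without edges -/
theorem add_iso (h : PL par v A f) {w : V} {t : ℤ} (hw : w ∉ A) (hpw : par w ∉ insert w A)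
    (hch : ∀ x ∈ A, x ≠ v → par x ≠ w) (ht : ∀ z ∈ A, f z ≠ t) :
    PL par v (insert w A) (Function.update f w t) ∧
    Opn par v (insert w A) (Function.update f w t) t ∧
    ∀ o, Opn par v A f o → Opn par v (insert w A) (Function.update f w t) o := by
  have key : ∀ x ∈ insert w A, x ≠ v → par x ∈ insert w A →
      x ∈ A ∧ par x ∈ A ∧ sg par (Function.update f w t) x = sg par f x := by
    intro x hx hxv hpx
    rcases Finset.mem_insert.1 hx with rfl | hx'
    · exact absurd hpx hpw
    · have h1 : par x ≠ w := hch x hx' hxv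
      have h2 : par x ∈ A := (Finset.mem_insert.1 hpx).resolve_left h1
      have h3 : x ≠ w := by
        rintro rfl
        exact hw hx'
      exact ⟨hx', h2, sg_update h3 h1⟩
  refine ⟨⟨upd_inj h hw ht, ?_, ?_⟩, ⟨?_, ?_⟩, ?_⟩
  · intro x hx hxv hpx y hy hyv hpy he
    obtain ⟨a1, a2, a3⟩ := key x hx hxv hpx
    obtain ⟨b1, b2, b3⟩ := key y hy hyv hpy
    rw [a3, b3] at he
    exact h.injs x a1 hxv a2 y b1 hyv b2 he
  · intro x hx hxv hpx
    obtain ⟨a1, a2, a3⟩ := key x hx hxv hpx
    obtain ⟨z, hz, hz2⟩ := h.sub x a1 hxv a2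
    exact ⟨z, Finset.mem_insert_of_mem hz, by rw [upd_mem hw hz, a3, hz2]⟩
  · exact ⟨w, Finset.mem_insert_self _ _, Function.update_self _ _ _⟩
  · intro x hx hxv hpx
    obtain ⟨a1, a2, a3⟩ := key x hx hxv hpx
    obtain ⟨z, hz, hz2⟩ := h.sub x a1 hxv a2
    rw [a3, ← hz2]
    exact ht z hz
  · intro o ho
    refine ⟨?_, ?_⟩
    · obtain ⟨z, hz, hz2⟩ := ho.mem
      exact ⟨z, Finset.mem_insert_of_mem hz, by rw [upd_mem hw hz, hz2]⟩
    · intro x hx hxv hpx
      obtain ⟨a1, a2, a3⟩ := key x hx hxv hpx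
      rw [a3]
      exact ho.ns x a1 hxv a2

/-- add a leaf `w` so that the new edge sum is the open label `o`; the new label is open -/
theorem add_leaf (h : PL par v A f) {w : V} {t o : ℤ} (ho : Opn par v A f o) (hw : w ∉ A)
    (hwv : w ≠ v) (hpw : par w ∈ A)
    (hch : ∀ x ∈ A, x ≠ v → par x ≠ w) (hto : t + f (par w) = o) (ht : ∀ z ∈ A, f z ≠ t) :
    PL par v (insert w A) (Function.update f w t) ∧
    Opn par v (insert w A) (Function.update f w t) t ∧
    ∀ o', Opn par v A f o' → o' ≠ o → Opn par v (insert w A) (Function.update f w t) o' := by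
  have hpne : par w ≠ w := by
    intro h1
    rw [h1] at hpw
    exact hw hpw
  have hsw : sg par (Function.update f w t) w = o := by
    unfold sg
    rw [Function.update_self, Function.update_of_ne hpne, hto]
  have key : ∀ x ∈ insert w A, x ≠ v → par x ∈ insert w A →
      x = w ∨ (x ∈ A ∧ par x ∈ A ∧ sg par (Function.update f w t) x = sg par f x) := by
    intro x hx hxv hpx
    rcases Finset.mem_insert.1 hx with rfl | hx'
    · exact Or.inl rfl
    · right
      have h1 : par x ≠ w := hch x hx' hxv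
      have h2 : par x ∈ A := (Finset.mem_insert.1 hpx).resolve_left h1
      have h3 : x ≠ w := by
        rintro rfl
        exact hw hx'
      exact ⟨hx', h2, sg_update h3 h1⟩
  obtain ⟨zo, hzo, hzo2⟩ := ho.mem
  refine ⟨⟨upd_inj h hw ht, ?_, ?_⟩, ⟨?_, ?_⟩, ?_⟩
  · intro x hx hxv hpx y hy hyv hpy he
    rcases key x hx hxv hpx with rfl | ⟨a1, a2, a3⟩
    · rcases key y hy hyv hpy with rfl | ⟨b1, b2, b3⟩
      · rfl
      · rw [hsw, b3] at he
        exact absurd he.symm (ho.ns y b1 hyv b2)
    · rcases key y hy hyv hpy with rfl | ⟨b1, b2, b3⟩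
      · rw [hsw, a3] at he
        exact absurd he (ho.ns x a1 hxv a2)
      · rw [a3, b3] at he
        exact h.injs x a1 hxv a2 y b1 hyv b2 he
  · intro x hx hxv hpx
    rcases key x hx hxv hpx with rfl | ⟨a1, a2, a3⟩
    · exact ⟨zo, Finset.mem_insert_of_mem hzo, by rw [upd_mem hw hzo, hsw, hzo2]⟩
    · obtain ⟨z, hz, hz2⟩ := h.sub x a1 hxv a2
      exact ⟨z, Finset.mem_insert_of_mem hz, by rw [upd_mem hw hz, a3, hz2]⟩
  · exact ⟨w, Finset.mem_insert_self _ _, Function.update_self _ _ _⟩
  · intro x hx hxv hpx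
    rcases key x hx hxv hpx with rfl | ⟨a1, a2, a3⟩
    · rw [hsw, ← hzo2]
      exact ht zo hzo
    · obtain ⟨z, hz, hz2⟩ := h.sub x a1 hxv a2
      rw [a3, ← hz2]
      exact ht z hz
  · intro o' ho' hne
    refine ⟨?_, ?_⟩
    · obtain ⟨z, hz, hz2⟩ := ho'.mem
      exact ⟨z, Finset.mem_insert_of_mem hz, by rw [upd_mem hw hz, hz2]⟩
    · intro x hx hxv hpx
      rcases key x hx hxv hpx with rfl | ⟨a1, a2, a3⟩
      · rw [hsw]
        exact hne.symm
      · rw [a3]
        exact ho'.ns x a1 hxv a2

/-- add a childless neighbour `w` of the root, which has label `0` -/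
theorem add_solo (h : PL par v A f) {w : V} {t : ℤ} (hw : w ∉ A) (hwv : w ≠ v)
    (hpw : par w = v) (hfv : f v = 0)
    (hch : ∀ x ∈ A, x ≠ v → par x ≠ w) (ht : ∀ z ∈ A, f z ≠ t) :
    PL par v (insert w A) (Function.update f w t) ∧
    ∀ o', Opn par v A f o' → Opn par v (insert w A) (Function.update f w t) o' := by
  have hsw : sg par (Function.update f w t) w = t := by
    unfold sg
    rw [Function.update_self, hpw, Function.update_of_ne hwv.symm, hfv, add_zero]
  have key : ∀ x ∈ insert w A, x ≠ v → par x ∈ insert w A →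
      x = w ∨ (x ∈ A ∧ par x ∈ A ∧ sg par (Function.update f w t) x = sg par f x) := by
    intro x hx hxv hpx
    rcases Finset.mem_insert.1 hx with rfl | hx'
    · exact Or.inl rfl
    · right
      have h1 : par x ≠ w := hch x hx' hxv
      have h2 : par x ∈ A := (Finset.mem_insert.1 hpx).resolve_left h1
      have h3 : x ≠ w := by
        rintro rfl
        exact hw hx'
      exact ⟨hx', h2, sg_update h3 h1⟩
  have hns : ∀ x ∈ A, x ≠ v → par x ∈ A → sg par f x ≠ t := by
    intro x hx hxv hpx
    obtain ⟨z, hz, hz2⟩ := h.sub x hx hxv hpx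
    rw [← hz2]
    exact ht z hz
  refine ⟨⟨upd_inj h hw ht, ?_, ?_⟩, ?_⟩
  · intro x hx hxv hpx y hy hyv hpy he
    rcases key x hx hxv hpx with rfl | ⟨a1, a2, a3⟩
    · rcases key y hy hyv hpy with rfl | ⟨b1, b2, b3⟩
      · rfl
      · rw [hsw, b3] at he
        exact absurd he.symm (hns y b1 hyv b2)
    · rcases key y hy hyv hpy with rfl | ⟨b1, b2, b3⟩
      · rw [hsw, a3] at he
        exact absurd he (hns x a1 hxv a2)
      · rw [a3, b3] at he
        exact h.injs x a1 hxv a2 y b1 hyv b2 he
  · intro x hx hxv hpx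
    rcases key x hx hxv hpx with rfl | ⟨a1, a2, a3⟩
    · exact ⟨x, Finset.mem_insert_self _ _, by rw [hsw, Function.update_self]⟩
    · obtain ⟨z, hz, hz2⟩ := h.sub x a1 hxv a2
      exact ⟨z, Finset.mem_insert_of_mem hz, by rw [upd_mem hw hz, a3, hz2]⟩
  · intro o' ho'
    refine ⟨?_, ?_⟩
    · obtain ⟨z, hz, hz2⟩ := ho'.mem
      exact ⟨z, Finset.mem_insert_of_mem hz, by rw [upd_mem hw hz, hz2]⟩
    · intro x hx hxv hpx
      rcases key x hx hxv hpx with rfl | ⟨a1, a2, a3⟩
      · rw [hsw]
        obtain ⟨z, hz, hz2⟩ := ho'.mem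
        rw [← hz2]
        exact (ht z hz).symm
      · rw [a3]
        exact ho'.ns x a1 hxv a2

/-- add a neighbour `u` of the root, which has label `0`; its only labelled child is `c`, and the
sum of the edge between `u` and `c` is the open label `o` -/
theorem add_top (h : PL par v A f) {u c : V} {t o : ℤ} (ho : Opn par v A f o) (hu : u ∉ A)
    (huv : u ≠ v) (hpu : par u = v) (hfv : f v = 0) (hc : c ∈ A)
    (hpc : par c = u) (hch : ∀ x ∈ A, x ≠ v → par x = u → x = c) (hto : t + f c = o)
    (ht : ∀ z ∈ A, f z ≠ t) :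
    PL par v (insert u A) (Function.update f u t) ∧
    ∀ o', Opn par v A f o' → o' ≠ o → Opn par v (insert u A) (Function.update f u t) o' := by
  have hcu : c ≠ u := by
    rintro rfl
    exact hu hc
  have hsu : sg par (Function.update f u t) u = t := by
    unfold sg
    rw [Function.update_self, hpu, Function.update_of_ne huv.symm, hfv, add_zero]
  have hsc : sg par (Function.update f u t) c = o := by
    unfold sg
    rw [hpc, Function.update_self, Function.update_of_ne hcu, add_comm, hto]
  have key : ∀ x ∈ insert u A, x ≠ v → par x ∈ insert u A →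
      x = u ∨ x = c ∨ (x ∈ A ∧ par x ∈ A ∧ sg par (Function.update f u t) x = sg par f x) := by
    intro x hx hxv hpx
    rcases Finset.mem_insert.1 hx with rfl | hx'
    · exact Or.inl rfl
    · right
      by_cases hxc : x = c
      · exact Or.inl hxc
      · right
        have h1 : par x ≠ u := fun h1 => hxc (hch x hx' hxv h1)
        have h2 : par x ∈ A := (Finset.mem_insert.1 hpx).resolve_left h1
        have h3 : x ≠ u := by
          rintro rfl
          exact hu hx'
        exact ⟨hx', h2, sg_update h3 h1⟩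
  obtain ⟨zo, hzo, hzo2⟩ := ho.mem
  have hot : o ≠ t := by
    rw [← hzo2]
    exact ht zo hzo
  have hns : ∀ x ∈ A, x ≠ v → par x ∈ A → sg par f x ≠ t := by
    intro x hx hxv hpx
    obtain ⟨z, hz, hz2⟩ := h.sub x hx hxv hpx
    rw [← hz2]
    exact ht z hz
  refine ⟨⟨upd_inj h hu ht, ?_, ?_⟩, ?_⟩
  · intro x hx hxv hpx y hy hyv hpy he
    rcases key x hx hxv hpx with rfl | rfl | ⟨a1, a2, a3⟩
    · rcases key y hy hyv hpy with rfl | rfl | ⟨b1, b2, b3⟩
      · rfl
      · rw [hsu, hsc] at he
        exact absurd he.symm hot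
      · rw [hsu, b3] at he
        exact absurd he.symm (hns y b1 hyv b2)
    · rcases key y hy hyv hpy with rfl | rfl | ⟨b1, b2, b3⟩
      · rw [hsu, hsc] at he
        exact absurd he hot
      · rfl
      · rw [hsc, b3] at he
        exact absurd he.symm (ho.ns y b1 hyv b2)
    · rcases key y hy hyv hpy with rfl | rfl | ⟨b1, b2, b3⟩
      · rw [hsu, a3] at he
        exact absurd he (hns x a1 hxv a2)
      · rw [hsc, a3] at he
        exact absurd he (ho.ns x a1 hxv a2)
      · rw [a3, b3] at he
        exact h.injs x a1 hxv a2 y b1 hyv b2 he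
  · intro x hx hxv hpx
    rcases key x hx hxv hpx with rfl | rfl | ⟨a1, a2, a3⟩
    · exact ⟨x, Finset.mem_insert_self _ _, by rw [hsu, Function.update_self]⟩
    · exact ⟨zo, Finset.mem_insert_of_mem hzo, by rw [upd_mem hu hzo, hsc, hzo2]⟩
    · obtain ⟨z, hz, hz2⟩ := h.sub x a1 hxv a2
      exact ⟨z, Finset.mem_insert_of_mem hz, by rw [upd_mem hu hz, a3, hz2]⟩
  · intro o' ho' hne
    refine ⟨?_, ?_⟩
    · obtain ⟨z, hz, hz2⟩ := ho'.mem
      exact ⟨z, Finset.mem_insert_of_mem hz, by rw [upd_mem hu hz, hz2]⟩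
    · intro x hx hxv hpx
      rcases key x hx hxv hpx with rfl | rfl | ⟨a1, a2, a3⟩
      · rw [hsu]
        obtain ⟨z, hz, hz2⟩ := ho'.mem
        rw [← hz2]
        exact (ht z hz).symm
      · rw [hsc]
        exact hne.symm
      · rw [a3]
        exact ho'.ns x a1 hxv a2

end Pool.Agent.H92.OL
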