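import Pool.Agent.H92.OL.Step

/-!
# The first part of the integer labeling

`v` is the root, `u` a neighbour of `v`, `c` a child of `u`.
* The other neighbours of `v` get the labels `1, …, M` (`first`), and `c` gets the label `-(M+1)`
  (`second`).  There are two open labels, `P = 0` and the least label `N = -(M+1)`.
* Further vertices, except `u` and its children, are added one by one, parents first (`third`).  A
  vertex with a negative parent gets the label `P - f (par w)`, the new greatest label, the new `P`; a
  vertex with a positive parent gets `N - f (par w)`, the new least label `N`.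
-/

namespace Pool.Agent.H92.OL

open Pool.Agent.H67.Lob (sg IsPar)

variable {V : Type} [DecidableEq V]

variable {par : V → V} {v : V} {A : Finset V} {f : V → ℤ} {dep : V → ℕ}

/-- the neighbours of the root get the labels `1, …, card U` -/
theorem first (U : Finset V) : (∀ u ∈ U, u ≠ v ∧ par u = v) →
    ∃ f : V → ℤ, PL par v (insert v U) f ∧ Opn par v (insert v U) f 0 ∧ f v = 0 ∧
      ∀ x ∈ U, 0 < f x ∧ f x ≤ U.card := by
  induction U using Finset.induction_on with
  | empty =>
    intro _
    refine ⟨fun _ => 0, ⟨?_, ?_, ?_⟩, ⟨⟨v, Finset.mem_insert_self _ _, rfl⟩, ?_⟩, rfl, ?_⟩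
    · intro x hx y hy _
      rw [insert_empty_eq, Finset.mem_singleton] at hx hy
      rw [hx, hy]
    · intro x hx hxv
      rw [insert_empty_eq, Finset.mem_singleton] at hx
      exact absurd hx hxv
    · intro x hx hxv
      rw [insert_empty_eq, Finset.mem_singleton] at hx
      exact absurd hx hxv
    · intro x hx hxv
      rw [insert_empty_eq, Finset.mem_singleton] at hx
      exact absurd hx hxv
    · intro x hx
      exact absurd hx (Finset.notMem_empty _)
  | insert u U huU ih =>
    intro hU
    obtain ⟨f, h1, h2, h3, h4⟩ := ih fun x hx => hU x (Finset.mem_insert_of_mem hx)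
    obtain ⟨huv, hpu⟩ := hU u (Finset.mem_insert_self _ _)
    have huA : u ∉ insert v U := by
      rw [Finset.mem_insert]
      rintro (h | h)
      · exact huv h
      · exact huU h
    have hch : ∀ x ∈ insert v U, x ≠ v → par x ≠ u := by
      intro x hx hxv he
      have hx' := (Finset.mem_insert.1 hx).resolve_left hxv
      have := (hU x (Finset.mem_insert_of_mem hx')).2
      rw [this] at he
      exact huv he.symm
    have hnew : ∀ z ∈ insert v U, f z ≠ (U.card : ℤ) + 1 := by
      intro z hz he
      rcases Finset.mem_insert.1 hz with rfl | hz'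
      · omega
      · have := h4 z hz'
        omega
    obtain ⟨k1, k2⟩ := add_solo h1 huA huv hpu h3 hch hnew
    have e1 : insert v (insert u U) = insert u (insert v U) := Finset.insert_comm _ _ _
    refine ⟨Function.update f u ((U.card : ℤ) + 1), ?_, ?_, ?_, ?_⟩
    · rw [e1]
      exact k1
    · rw [e1]
      exact k2 0 h2
    · rw [Function.update_of_ne huv.symm, h3]
    · intro x hx
      rw [Finset.card_insert_of_notMem huU]
      rcases Finset.mem_insert.1 hx with rfl | hx'
      · rw [Function.update_self]
        push_cast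
        constructor <;> omega
      · rw [upd_mem huA (Finset.mem_insert_of_mem hx')]
        have := h4 x hx'
        push_cast
        omega

/-- state while the vertices at distance at least two are labelled; `T` is the labelled set -/
structure Inn (par : V → V) (v : V) (dep : V → ℕ) (T : Finset V) (c : V) (M : ℤ) (f : V → ℤ)
    (P N : ℤ) : Prop where
  pl : PL par v T f
  oP : Opn par v T f P
  oN : Opn par v T f N
  mx : ∀ x ∈ T, f x ≤ P ∨ f x ≤ M
  lo : ∀ x ∈ T, N ≤ f x
  hP : 0 ≤ P
  hN : N ≤ -(M + 1)
  neg : ∀ x ∈ T, x ≠ v → dep x % 2 = 0 → f x ≤ -(M + 1)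
  pos : ∀ x ∈ T, x ≠ v → dep x % 2 ≠ 0 → 0 < f x
  ch : ∀ x ∈ T, x ≠ v → par x ∈ T → f (par x) < 0 → 0 ≤ f x + f (par x)
  bd : BD 2 T f
  fv : f v = 0
  fc : f c = -(M + 1)

theorem second {M : ℤ} {c : V} (h : PL par v A f) (hτ : Opn par v A f 0) (hM : 0 ≤ M)
    (hbd : ∀ x ∈ A, x ≠ v → 0 < f x ∧ f x ≤ M ∧ dep x % 2 ≠ 0 ∧ par x ≠ c) (hfv : f v = 0)
    (hvA : v ∈ A) (hcA : c ∉ A) (hdc : dep c % 2 = 0) (hpc : par c ∉ A) (hpcc : par c ≠ c)
    (hcard : 2 * (M + 1) ≤ 2 ^ A.card) :
    Inn par v dep (insert c A) c M (Function.update f c (-(M + 1))) 0 (-(M + 1)) := by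
  have hb : ∀ x ∈ A, 0 ≤ f x ∧ f x ≤ M := by
    intro x hx
    by_cases hxv : x = v
    · rw [hxv, hfv]
      exact ⟨le_rfl, hM⟩
    · have := hbd x hx hxv
      constructor <;> omega
  have hcv : v ≠ c := by
    rintro rfl
    exact hcA hvA
  have h1 : par c ∉ insert c A := by
    rw [Finset.mem_insert]
    rintro (h1 | h1)
    · exact hpcc h1
    · exact hpc h1
  have h2 : ∀ x ∈ A, x ≠ v → par x ≠ c := fun x hx hxv => (hbd x hx hxv).2.2.2
  have h3 : ∀ z ∈ A, f z ≠ -(M + 1) := by
    intro z hz he
    have := hb z hz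
    omega
  obtain ⟨k1, k2, k3⟩ := add_iso h hcA h1 h2 h3
  have hself : Function.update f c (-(M + 1)) c = -(M + 1) := Function.update_self _ _ _
  have hold : ∀ x ∈ A, Function.update f c (-(M + 1)) x = f x := fun x hx => upd_mem hcA hx
  refine ⟨k1, k3 0 hτ, k2, ?_, ?_, le_rfl, le_rfl, ?_, ?_, ?_, ?_, ?_, hself⟩
  · intro x hx
    rcases Finset.mem_insert.1 hx with rfl | hx'
    · rw [hself]
      omega
    · rw [hold x hx']
      have := hb x hx'
      omega
  · intro x hx
    rcases Finset.mem_insert.1 hx with rfl | hx'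
    · rw [hself]
    · rw [hold x hx']
      have := hb x hx'
      omega
  · intro x hx hxv hd
    rcases Finset.mem_insert.1 hx with rfl | hx'
    · rw [hself]
    · exact absurd hd (hbd x hx' hxv).2.2.1
  · intro x hx hxv hd
    rcases Finset.mem_insert.1 hx with rfl | hx'
    · exact absurd hdc hd
    · rw [hold x hx']
      exact (hbd x hx' hxv).1
  · intro x hx hxv hpx hneg
    exfalso
    have hpx' : par x ≠ c := by
      rcases Finset.mem_insert.1 hx with rfl | hx'
      · exact hpcc
      · exact h2 x hx' hxv
    have h4 : par x ∈ A := (Finset.mem_insert.1 hpx).resolve_left hpx'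
    rw [hold _ h4] at hneg
    have := hb _ h4
    omega
  · intro x hx
    rw [Finset.card_insert_of_notMem hcA, pow_succ]
    rcases Finset.mem_insert.1 hx with rfl | hx'
    · rw [hself, abs_neg, abs_of_nonneg (by omega)]
      linarith
    · rw [hold x hx']
      have := hb x hx'
      rw [abs_of_nonneg this.1]
      linarith
  · rw [Function.update_of_ne hcv, hfv]

theorem step {T : Finset V} {c a : V} {M P N : ℤ} (hM : 0 ≤ M)
    (hdep : ∀ x, x ≠ v → dep x = dep (par x) + 1)
    (h : Inn par v dep T c M f P N) (haT : a ∉ T) (hvT : v ∈ T) (hcT : c ∈ T)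
    (hpa : par a ∈ T) (hpav : par a ≠ v) (hch : ∀ x ∈ T, x ≠ v → par x ≠ a) :
    ∃ f' P' N', Inn par v dep (insert a T) c M f' P' N' := by
  have hav : a ≠ v := by
    rintro rfl
    exact haT hvT
  have hac : a ≠ c := by
    rintro rfl
    exact haT hcT
  have hda := hdep a hav
  have hhP := h.hP
  have hhN := h.hN
  have hPN : N ≠ P := by omega
  obtain ⟨zP, hzP, hzP2⟩ := h.oP.mem
  obtain ⟨zN, hzN, hzN2⟩ := h.oN.mem
  by_cases hpar : dep (par a) % 2 = 0
  · have hneg := h.neg _ hpa hpav hpar
    have hself : Function.update f a (P - f (par a)) a = P - f (par a) :=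
      Function.update_self _ _ _
    have hold : ∀ x ∈ T, Function.update f a (P - f (par a)) x = f x :=
      fun x hx => upd_mem haT hx
    have hnew : ∀ z ∈ T, f z ≠ P - f (par a) := by
      intro z hz he
      have := h.mx z hz
      omega
    obtain ⟨k1, k2, k3⟩ := add_leaf h.pl h.oP haT hav hpa hch (t := P - f (par a))
      (by ring) hnew
    refine ⟨Function.update f a (P - f (par a)), P - f (par a), N,
      k1, k2, k3 N h.oN hPN, ?_, ?_, ?_, h.hN, ?_, ?_, ?_, ?_, ?_, ?_⟩
    · intro x hx
      rcases Finset.mem_insert.1 hx with rfl | hx'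
      · rw [hself]
        omega
      · rw [hold x hx']
        have := h.mx x hx'
        omega
    · intro x hx
      rcases Finset.mem_insert.1 hx with rfl | hx'
      · rw [hself]
        omega
      · rw [hold x hx']
        exact h.lo x hx'
    · omega
    · intro x hx hxv hxp
      rcases Finset.mem_insert.1 hx with rfl | hx'
      · exfalso
        omega
      · rw [hold x hx']
        exact h.neg x hx' hxv hxp
    · intro x hx hxv hxp
      rcases Finset.mem_insert.1 hx with rfl | hx'
      · rw [hself]
        omega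
      · rw [hold x hx']
        exact h.pos x hx' hxv hxp
    · intro x hx hxv hpx hng
      rcases Finset.mem_insert.1 hx with rfl | hx'
      · rw [hself, hold _ hpa]
        omega
      · have h5 : par x ∈ T := (Finset.mem_insert.1 hpx).resolve_left (hch x hx' hxv)
        rw [hold _ h5] at hng
        rw [hold x hx', hold _ h5]
        exact h.ch x hx' hxv h5 hng
    · refine bd_add (by norm_num) h.bd haT hzP hpa ?_
      rw [hzP2]
      exact abs_sub_le' _ _
    · rw [hold v hvT, h.fv]
    · rw [hold c hcT, h.fc]
  · have hpos := h.pos _ hpa hpav hpar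
    have hself : Function.update f a (N - f (par a)) a = N - f (par a) :=
      Function.update_self _ _ _
    have hold : ∀ x ∈ T, Function.update f a (N - f (par a)) x = f x :=
      fun x hx => upd_mem haT hx
    have hnew : ∀ z ∈ T, f z ≠ N - f (par a) := by
      intro z hz he
      have := h.lo z hz
      omega
    obtain ⟨k1, k2, k3⟩ := add_leaf h.pl h.oN haT hav hpa hch (t := N - f (par a))
      (by ring) hnew
    refine ⟨Function.update f a (N - f (par a)), P, N - f (par a),
      k1, k3 P h.oP hPN.symm, k2, ?_, ?_, h.hP, ?_, ?_, ?_, ?_, ?_, ?_, ?_⟩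
    · intro x hx
      rcases Finset.mem_insert.1 hx with rfl | hx'
      · rw [hself]
        omega
      · rw [hold x hx']
        exact h.mx x hx'
    · intro x hx
      rcases Finset.mem_insert.1 hx with rfl | hx'
      · rw [hself]
      · rw [hold x hx']
        have := h.lo x hx'
        omega
    · omega
    · intro x hx hxv hxp
      rcases Finset.mem_insert.1 hx with rfl | hx'
      · rw [hself]
        omega
      · rw [hold x hx']
        exact h.neg x hx' hxv hxp
    · intro x hx hxv hxp
      rcases Finset.mem_insert.1 hx with rfl | hx'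
      · exfalso
        omega
      · rw [hold x hx']
        exact h.pos x hx' hxv hxp
    · intro x hx hxv hpx hng
      rcases Finset.mem_insert.1 hx with rfl | hx'
      · rw [hold _ hpa] at hng
        omega
      · have h5 : par x ∈ T := (Finset.mem_insert.1 hpx).resolve_left (hch x hx' hxv)
        rw [hold _ h5] at hng
        rw [hold x hx', hold _ h5]
        exact h.ch x hx' hxv h5 hng
    · refine bd_add (by norm_num) h.bd haT hzN hpa ?_
      rw [hzN2]
      exact abs_sub_le' _ _
    · rw [hold v hvT, h.fv]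
    · rw [hold c hcT, h.fc]

/-- a set `S` of vertices at distance at least two, which is closed under `par` relative to `A`, is
added -/
theorem third {c : V} {M P N : ℤ} (hM : 0 ≤ M)
    (hdep : ∀ x, x ≠ v → dep x = dep (par x) + 1)
    (h : Inn par v dep A c M f P N) (hvA : v ∈ A) (hcA : c ∈ A)
    (hA : ∀ x ∈ A, x ≠ v → x = c ∨ par x = v) (S : Finset V) :
    (∀ x ∈ S, x ∉ A ∧ x ≠ par c ∧ par x ∈ A ∪ S ∧ par x ≠ v) →
    ∃ f' P' N', Inn par v dep (A ∪ S) c M f' P' N' := by
  induction S using Finset.induction_on_max_value dep with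
  | empty =>
    intro _
    refine ⟨f, P, N, ?_⟩
    rw [Finset.union_empty]
    exact h
  | insert a S haS hmax ih =>
    intro hS
    have hS' : ∀ x ∈ S, x ∉ A ∧ x ≠ par c ∧ par x ∈ A ∪ S ∧ par x ≠ v := by
      intro x hx
      obtain ⟨h1, h3, h4, h5⟩ := hS x (Finset.mem_insert_of_mem hx)
      refine ⟨h1, h3, ?_, h5⟩
      rcases Finset.mem_union.1 h4 with h6 | h6
      · exact Finset.mem_union_left _ h6
      · rcases Finset.mem_insert.1 h6 with h6 | h6
        · exfalso
          have hxv : x ≠ v := by
            rintro rfl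
            exact h1 hvA
          have h7 := hdep x hxv
          have h8 := hmax x hx
          rw [h6] at h7
          omega
        · exact Finset.mem_union_right _ h6
    obtain ⟨f', P', N', hI⟩ := ih hS'
    obtain ⟨a1, a3, a4, a5⟩ := hS a (Finset.mem_insert_self _ _)
    have hav : a ≠ v := by
      rintro rfl
      exact a1 hvA
    have hpaa : par a ≠ a := by
      intro he
      have := hdep a hav
      rw [he] at this
      omega
    have hpa : par a ∈ A ∪ S := by
      rcases Finset.mem_union.1 a4 with h6 | h6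
      · exact Finset.mem_union_left _ h6
      · rcases Finset.mem_insert.1 h6 with h6 | h6
        · exact absurd h6 hpaa
        · exact Finset.mem_union_right _ h6
    have haT : a ∉ A ∪ S := by
      rw [Finset.mem_union]
      rintro (h5 | h5)
      · exact a1 h5
      · exact haS h5
    have hvT : v ∈ A ∪ S := Finset.mem_union_left _ hvA
    have hcT : c ∈ A ∪ S := Finset.mem_union_left _ hcA
    have hch : ∀ x ∈ A ∪ S, x ≠ v → par x ≠ a := by
      intro x hx hxv he
      rcases Finset.mem_union.1 hx with hx' | hx'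
      · rcases hA x hx' hxv with h6 | h6
        · rw [h6] at he
          exact a3 he.symm
        · rw [h6] at he
          exact hav he.symm
      · have h7 := hdep x hxv
        have h8 := hmax x hx'
        rw [he] at h7
        omega
    obtain ⟨f'', P'', N'', hI'⟩ := step hM hdep hI haT hvT hcT hpa a5 hch
    have e1 : A ∪ insert a S = insert a (A ∪ S) := Finset.union_insert _ _ _
    refine ⟨f'', P'', N'', ?_⟩
    rw [e1]
    exact hI'

/-- the labeling of `v`, the neighbours `U` of `v`, `c` and `S` -/
theorem phase {u c : V} (hd0 : dep v = 0) (hdep : ∀ x, x ≠ v → dep x = dep (par x) + 1)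
    (huv : u ≠ v) (hpu : par u = v) (hcv : c ≠ v) (hpc : par c = u) (U S : Finset V)
    (hU : ∀ x ∈ U, x ≠ v ∧ par x = v ∧ x ≠ u)
    (hS : ∀ x ∈ S, x ≠ v ∧ par x ≠ v ∧ par x ≠ u ∧ par x ∈ insert c U ∪ S) :
    ∃ f P N, Inn par v dep (insert c (insert v U) ∪ S) c U.card f P N := by
  obtain ⟨f0, h1, h2, h3, h4⟩ := first U fun x hx => ⟨(hU x hx).1, (hU x hx).2.1⟩
  have hdu : dep u = 1 := by rw [hdep u huv, hpu, hd0]
  have hdc : dep c = 2 := by rw [hdep c hcv, hpc, hdu]
  have hcu : c ≠ u := by
    rintro rfl
    omega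
  have hM0 : (0 : ℤ) ≤ (U.card : ℤ) := Nat.cast_nonneg _
  have hvU : v ∉ U := fun h => (hU v h).1 rfl
  have hcA : c ∉ insert v U := by
    rw [Finset.mem_insert]
    rintro (h | h)
    · exact hcv h
    · have := (hU c h).2.1
      rw [hpc] at this
      exact huv this
  have huA : u ∉ insert v U := by
    rw [Finset.mem_insert]
    rintro (h | h)
    · exact huv h
    · exact (hU u h).2.2 rfl
  have hb : ∀ x ∈ insert v U, x ≠ v →
      0 < f0 x ∧ f0 x ≤ (U.card : ℤ) ∧ dep x % 2 ≠ 0 ∧ par x ≠ c := by
    intro x hx hxv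
    have hx' := (Finset.mem_insert.1 hx).resolve_left hxv
    obtain ⟨u1, u2, u3⟩ := hU x hx'
    refine ⟨(h4 x hx').1, (h4 x hx').2, ?_, ?_⟩
    · rw [hdep x hxv, u2, hd0]
      decide
    · rw [u2]
      exact hcv.symm
  have hcard : 2 * ((U.card : ℤ) + 1) ≤ 2 ^ (insert v U).card := by
    rw [Finset.card_insert_of_notMem hvU, pow_succ]
    have h5 : U.card + 1 ≤ 2 ^ U.card := Nat.lt_two_pow_self
    have h6 : ((U.card : ℤ) + 1) ≤ 2 ^ U.card := by exact_mod_cast h5
    linarith
  have hI0 := second (dep := dep) h1 h2 hM0 hb h3 (Finset.mem_insert_self _ _) hcA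
    (by rw [hdc]) (by rw [hpc]; exact huA) (by rw [hpc]; exact hcu.symm) hcard
  obtain ⟨A, hA⟩ : ∃ A, A = insert c (insert v U) := ⟨_, rfl⟩
  rw [← hA] at hI0 ⊢
  have hvA : v ∈ A := by
    rw [hA]
    exact Finset.mem_insert_of_mem (Finset.mem_insert_self _ _)
  have hcA' : c ∈ A := by
    rw [hA]
    exact Finset.mem_insert_self _ _
  have hAv : ∀ x ∈ A, x ≠ v → x = c ∨ par x = v := by
    intro x hx hxv
    rw [hA, Finset.mem_insert, Finset.mem_insert] at hx
    rcases hx with h | h | h
    · exact Or.inl h
    · exact absurd h hxv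
    · exact Or.inr (hU x h).2.1
  have hScond : ∀ x ∈ S, x ∉ A ∧ x ≠ par c ∧ par x ∈ A ∪ S ∧ par x ≠ v := by
    intro x hx
    obtain ⟨s1, s2, s3, s4⟩ := hS x hx
    refine ⟨?_, ?_, ?_, s2⟩
    · intro h
      rcases hAv x h s1 with h5 | h5
      · rw [h5] at s3
        exact s3 hpc
      · exact s2 h5
    · rw [hpc]
      rintro rfl
      exact s2 hpu
    · rcases Finset.mem_union.1 s4 with h5 | h5
      · apply Finset.mem_union_left
        rw [hA]
        rcases Finset.mem_insert.1 h5 with h6 | h6
        · rw [h6]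
          exact Finset.mem_insert_self _ _
        · exact Finset.mem_insert_of_mem (Finset.mem_insert_of_mem h6)
      · exact Finset.mem_union_right _ h5
  exact third hM0 hdep hI0 hvA hcA' hAv S hScond

end Pool.Agent.H92.OL
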