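import Pool.Agent.H92.OL.CaseC
import Pool.Agent.H67.Lob.Tree

/-!
# Trees with one vertex with many leaves
-/

namespace Pool.Agent.H92.OL

open Pool.Agent.H67.Lob (sg IsPar)

theorem setup_nonleaf {V : Type} [DecidableEq V] [Fintype V] {par : V → V} {dep : V → ℕ}
    {v u c : V} {L U : Finset V} (hs : Setup par dep v u c L U)
    (hcch : ∃ y, y ≠ v ∧ par y = c) (hLA : 2 ^ (Lᶜ).card ≤ L.card) :
    ∃ F : V → ZMod (Fintype.card V - 1), Function.Surjective F ∧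
      ∀ x y, x ≠ v → y ≠ v → F x + F (par x) = F y + F (par y) → x = y := by
  by_cases h0 : ∀ x, x ≠ v → par x = u → x ≠ c → ∀ z, z ≠ v → par z ≠ x
  · exact caseA hs h0 hLA
  · push Not at h0
    obtain ⟨c2, a1, a2, a3, x2, a4, a5⟩ := h0
    by_cases h1 : ∀ x, x ≠ v → par x = u → x ≠ c → x ≠ c2 → ∀ z, z ≠ v → par z ≠ x
    · exact caseB hs hcch a1 a2 a3 h1 hLA
    · push Not at h1
      obtain ⟨c3, b1, b2, b3, b3', x3, b4, b5⟩ := h1
      exact caseC hs hcch a1 a2 a3 b1 b2 b3 b3'.symm a4 a5 b4 b5 hLA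

theorem setup_all {V : Type} [DecidableEq V] [Fintype V] {par : V → V} {dep : V → ℕ}
    {v u c : V} {L U : Finset V} (hs : Setup par dep v u c L U)
    (hLA : 2 ^ (Lᶜ).card ≤ L.card) :
    ∃ F : V → ZMod (Fintype.card V - 1), Function.Surjective F ∧
      ∀ x y, x ≠ v → y ≠ v → F x + F (par x) = F y + F (par y) → x = y := by
  by_cases hcch : ∃ y, y ≠ v ∧ par y = c
  · exact setup_nonleaf hs hcch hLA
  · by_cases h0 : ∀ x, x ≠ v → par x = u → x ≠ c → ∀ z, z ≠ v → par z ≠ x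
    · exact caseA hs h0 hLA
    · push Not at h0
      obtain ⟨c', a1, a2, a3, y, a4, a5⟩ := h0
      refine setup_nonleaf (c := c') ⟨hs.hd0, hs.hdep, hs.huv, hs.hpu, a1, a2, hs.hL, hs.huL, hs.hU,
        ?_⟩ ⟨y, a4, a5⟩ hLA
      intro x hxv hpx _ z hzv hpz
      by_cases hxc : x = c
      · exact absurd ⟨z, hzv, hpz.trans hxc⟩ hcch
      · exact hs.hst x hxv hpx hxc z hzv hpz

theorem main_thm {V : Type} [Fintype V] (G : SimpleGraph V) (hG : G.IsTree) (v u c : V)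
    (hvu : G.Adj v u) (huc : G.Adj u c) (hcv : c ≠ v)
    (hu : ∀ x, G.Adj u x → x ≠ v → x ≠ c → ∀ y, G.Adj x y → y ≠ u → ∀ z, G.Adj y z → z = x)
    (hcard : 2 ^ (Fintype.card V - {x | G.Adj v x ∧ ∀ z, G.Adj x z → z = v}.ncard) ≤
      {x | G.Adj v x ∧ ∀ z, G.Adj x z → z = v}.ncard) :
    ∃ F : V → ZMod (Fintype.card V - 1),
      Function.Surjective F ∧
      ∀ a b x y : V, G.Adj a b → G.Adj x y →
        F a + F b = F x + F y → s(a, b) = s(x, y) := by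
  classical
  obtain ⟨par, hp⟩ := Pool.Agent.H67.Lob.exists_isPar G hG v
  obtain ⟨dep, hdepdef⟩ : ∃ dep : V → ℕ, ∀ x, dep x = G.dist x v :=
    ⟨fun x => G.dist x v, fun _ => rfl⟩
  have hd0 : dep v = 0 := by rw [hdepdef, SimpleGraph.dist_self]
  have hdep : ∀ x, x ≠ v → dep x = dep (par x) + 1 := by
    intro x hx
    rw [hdepdef, hdepdef, hp.dist x hx]
  have huv : u ≠ v := hvu.ne'
  have hpu : par u = v := by
    rcases hp.edge v u hvu with ⟨h1, _⟩ | ⟨_, h2⟩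
    · exact absurd rfl h1
    · exact h2.symm
  have hpc : par c = u := by
    rcases hp.edge u c huc with ⟨_, h2⟩ | ⟨_, h2⟩
    · rw [hpu] at h2
      exact absurd h2 hcv
    · exact h2.symm
  obtain ⟨L, hLdef⟩ : ∃ L : Finset V,
      L = Finset.univ.filter (fun x => G.Adj v x ∧ ∀ z, G.Adj x z → z = v) := ⟨_, rfl⟩
  have hmL : ∀ x, x ∈ L ↔ (G.Adj v x ∧ ∀ z, G.Adj x z → z = v) := by
    intro x
    rw [hLdef, Finset.mem_filter]
    exact ⟨fun h => h.2, fun h => ⟨Finset.mem_univ _, h⟩⟩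
  have hLv : ∀ x ∈ L, x ≠ v := by
    rintro x hx rfl
    exact G.irrefl ((hmL x).1 hx).1
  have hLset : {x | G.Adj v x ∧ ∀ z, G.Adj x z → z = v} = (L : Set V) := by
    ext x
    rw [Finset.mem_coe, hmL]
    rfl
  rw [hLset, Set.ncard_coe_finset, ← Finset.card_compl] at hcard
  have hs : Setup par dep v u c L (Finset.univ.filter
      (fun x => x ≠ v ∧ par x = v ∧ x ∉ L ∧ x ≠ u)) := by
    refine ⟨hd0, hdep, huv, hpu, hcv, hpc, ?_, ?_, ?_, ?_⟩
    · intro x hx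
      obtain ⟨h1, h2⟩ := Pool.Agent.H67.Lob.par_leaf hp (hLv x hx) ((hmL x).1 hx).2
      exact ⟨hLv x hx, h1, h2⟩
    · intro h
      exact hcv (((hmL u).1 h).2 c huc)
    · intro x
      rw [Finset.mem_filter]
      exact ⟨fun h => h.2, fun h => ⟨Finset.mem_univ _, h⟩⟩
    · intro x hxv hpx hxc y hyv hpy z hzv hpz
      have e1 : G.Adj x u := hpx ▸ hp.adj x hxv
      have e2 : G.Adj y x := hpy ▸ hp.adj y hyv
      have e3 : G.Adj z y := hpz ▸ hp.adj z hzv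
      have hyu : y ≠ u := by
        intro h
        rw [h, hpu] at hpy
        exact hxv hpy.symm
      have h1 : z = x := hu x e1.symm hxv hxc y e2.symm hyu z e3.symm
      rw [h1, hpx] at hpz
      exact hyu hpz.symm
  obtain ⟨F, hF1, hF2⟩ := setup_all hs hcard
  refine ⟨F, hF1, ?_⟩
  have hedge : ∀ a b, G.Adj a b → ∃ x, x ≠ v ∧ s(a, b) = s(x, par x) ∧
      F a + F b = F x + F (par x) := by
    intro a b hab
    rcases hp.edge a b hab with ⟨h1, h2⟩ | ⟨h1, h2⟩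
    · exact ⟨a, h1, by rw [h2], by rw [h2]⟩
    · exact ⟨b, h1, by rw [h2, Sym2.eq_swap], by rw [h2, add_comm]⟩
  intro a b x y hab hxy he
  obtain ⟨p, hc1, hc2, hc3⟩ := hedge a b hab
  obtain ⟨d, hd1, hd2, hd3⟩ := hedge x y hxy
  rw [hc3, hd3] at he
  rw [hc2, hd2, hF2 p d hc1 hd1 he]

end Pool.Agent.H92.OL
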