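import Pool.Agent.H92.OL.Core

/-!
# Adding many leaves

`nadd`: leaves are added to vertices with positive labels, each edge sum being the least label so far;
`padd`: leaves are added to vertices with negative labels, each edge sum being the greatest label.
`BD k T f`: the labels are at most `k 2^|T| / 8` in absolute value.
-/

namespace Pool.Agent.H92.OL

open Pool.Agent.H67.Lob (sg IsPar)

variable {V : Type} [DecidableEq V]

variable {par : V → V} {v : V} {f : V → ℤ}

/-- a bound for the labels -/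
def BD (k : ℤ) (T : Finset V) (f : V → ℤ) : Prop := ∀ x ∈ T, 8 * |f x| ≤ k * 2 ^ T.card

theorem bd_add {k : ℤ} {T : Finset V} (hk : 0 ≤ k) (hb : BD k T f) {w : V} {t : ℤ} (hw : w ∉ T)
    {a b : V} (ha : a ∈ T) (hb' : b ∈ T) (ht : |t| ≤ |f a| + |f b|) :
    BD k (insert w T) (Function.update f w t) := by
  intro x hx
  rw [Finset.card_insert_of_notMem hw, pow_succ]
  have h1 := hb a ha
  have h2 := hb b hb'
  have h3 : (0 : ℤ) ≤ k * 2 ^ T.card := by positivity
  rcases Finset.mem_insert.1 hx with rfl | hx'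
  · rw [Function.update_self]
    linarith
  · rw [upd_mem hw hx']
    have h4 := hb x hx'
    linarith

theorem bd_mono {k k' : ℤ} {T : Finset V} (hkk : k ≤ k') (hb : BD k T f) : BD k' T f := by
  intro x hx
  have h1 := hb x hx
  have h2 : (0 : ℤ) ≤ 2 ^ T.card := by positivity
  nlinarith

theorem abs_sub_le' (a b : ℤ) : |a - b| ≤ |a| + |b| := by
  have := abs_add_le a (-b)
  rw [abs_neg] at this
  exact this

/-- leaves added to vertices with positive labels -/
theorem nadd {T : Finset V} {N : ℤ} (h : PL par v T f) (ho : Opn par v T f N)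
    (hlo : ∀ x ∈ T, N ≤ f x) (Z : Finset V) :
    (∀ z ∈ Z, z ∉ T ∧ z ≠ v ∧ par z ∈ T ∧ 0 < f (par z)) → (∀ x ∈ T, x ≠ v → par x ∉ Z) →
    ∃ f', PL par v (T ∪ Z) f' ∧ Opn par v (T ∪ Z) f' (N - ∑ z ∈ Z, f (par z)) ∧
      (∀ x ∈ T ∪ Z, N - ∑ z ∈ Z, f (par z) ≤ f' x) ∧ (∀ x ∈ T, f' x = f x) ∧
      (∀ z ∈ Z, f' z < N) ∧ ∀ k, 0 ≤ k → BD k T f → BD k (T ∪ Z) f' := by
  induction Z using Finset.induction_on with
  | empty =>
    intro _ _
    rw [Finset.union_empty, Finset.sum_empty, sub_zero]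
    refine ⟨f, h, ho, hlo, fun _ _ => rfl, ?_, fun _ _ hb => hb⟩
    intro z hz
    exact absurd hz (Finset.notMem_empty _)
  | insert w Z hwZ ih =>
    intro hZ hTZ
    obtain ⟨f', k1, k2, k3, k4, k5, k6⟩ := ih
      (fun x hx => hZ x (Finset.mem_insert_of_mem hx))
      (fun x hx hxv hp => hTZ x hx hxv (Finset.mem_insert_of_mem hp))
    obtain ⟨s, hs⟩ : ∃ s, s = ∑ z ∈ Z, f (par z) := ⟨_, rfl⟩
    rw [← hs] at k2 k3
    have hs0 : 0 ≤ s := by
      rw [hs]
      apply Finset.sum_nonneg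
      intro z hz
      exact (hZ z (Finset.mem_insert_of_mem hz)).2.2.2.le
    obtain ⟨w1, w2, w3, w4⟩ := hZ w (Finset.mem_insert_self _ _)
    have hwn : w ∉ T ∪ Z := by
      rw [Finset.mem_union]
      rintro (h1 | h1)
      · exact w1 h1
      · exact hwZ h1
    have hpw : par w ∈ T ∪ Z := Finset.mem_union_left _ w3
    have hfp : f' (par w) = f (par w) := k4 _ w3
    have hch : ∀ x ∈ T ∪ Z, x ≠ v → par x ≠ w := by
      intro x hx hxv he
      rcases Finset.mem_union.1 hx with hx' | hx'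
      · exact hTZ x hx' hxv (he ▸ Finset.mem_insert_self _ _)
      · obtain ⟨x1, x2, x3, x4⟩ := hZ x (Finset.mem_insert_of_mem hx')
        rw [he] at x3
        exact w1 x3
    have hnew : ∀ z ∈ T ∪ Z, f' z ≠ N - s - f (par w) := by
      intro z hz he
      have := k3 z hz
      omega
    obtain ⟨l1, l2, l3⟩ := add_leaf k1 k2 hwn w2 hpw hch
      (t := N - s - f (par w)) (by rw [hfp]; ring) hnew
    have hself : Function.update f' w (N - s - f (par w)) w = N - s - f (par w) :=
      Function.update_self _ _ _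
    have hold : ∀ x ∈ T ∪ Z, Function.update f' w (N - s - f (par w)) x = f' x :=
      fun x hx => upd_mem hwn hx
    have e1 : T ∪ insert w Z = insert w (T ∪ Z) := Finset.union_insert _ _ _
    have e2 : N - ∑ z ∈ insert w Z, f (par z) = N - s - f (par w) := by
      rw [Finset.sum_insert hwZ, hs]
      ring
    rw [e1, e2]
    refine ⟨Function.update f' w (N - s - f (par w)), l1, l2, ?_, ?_, ?_, ?_⟩
    · intro x hx
      rcases Finset.mem_insert.1 hx with rfl | hx'
      · rw [hself]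
      · rw [hold x hx']
        have := k3 x hx'
        omega
    · intro x hx
      rw [hold x (Finset.mem_union_left _ hx)]
      exact k4 x hx
    · intro z hz
      rcases Finset.mem_insert.1 hz with rfl | hz'
      · rw [hself]
        omega
      · rw [hold z (Finset.mem_union_right _ hz')]
        exact k5 z hz'
    · intro k hk hb
      obtain ⟨zo, hzo, hzo2⟩ := k2.mem
      refine bd_add hk (k6 k hk hb) hwn hzo hpw ?_
      rw [hzo2, hfp]
      exact abs_sub_le' _ _

/-- a single leaf added to a vertex with positive label -/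
theorem nadd_one {T : Finset V} {N : ℤ} {w : V} {f' : V → ℤ} (hlo : ∀ x ∈ T, N ≤ f x)
    (hw4 : 0 < f (par w)) (k2 : Opn par v (T ∪ {w}) f' (N - ∑ z ∈ {w}, f (par z)))
    (k4 : ∀ x ∈ T, f' x = f x) : f' w = N - f (par w) := by
  rw [Finset.sum_singleton] at k2
  obtain ⟨x, hx, hx2⟩ := k2.mem
  rcases Finset.mem_union.1 hx with hx' | hx'
  · rw [k4 x hx'] at hx2
    have := hlo x hx'
    omega
  · rw [Finset.mem_singleton] at hx'
    rw [← hx', hx2, hx']

theorem pl_neg {T : Finset V} (h : PL par v T f) : PL par v T (fun x => -f x) := by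
  have e : ∀ x, sg par (fun x => -f x) x = -sg par f x := by
    intro x
    unfold sg
    ring
  refine ⟨?_, ?_, ?_⟩
  · intro x hx y hy he
    exact h.inj x hx y hy (neg_injective he)
  · intro x hx hxv hpx y hy hyv hpy he
    rw [e, e] at he
    exact h.injs x hx hxv hpx y hy hyv hpy (neg_injective he)
  · intro x hx hxv hpx
    obtain ⟨z, hz, hz2⟩ := h.sub x hx hxv hpx
    exact ⟨z, hz, by rw [e, hz2]⟩

theorem opn_neg {T : Finset V} {o : ℤ} (h : Opn par v T f o) : Opn par v T (fun x => -f x) (-o) := by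
  have e : ∀ x, sg par (fun x => -f x) x = -sg par f x := by
    intro x
    unfold sg
    ring
  refine ⟨?_, ?_⟩
  · obtain ⟨z, hz, hz2⟩ := h.mem
    exact ⟨z, hz, by rw [hz2]⟩
  · intro x hx hxv hpx he
    rw [e] at he
    exact h.ns x hx hxv hpx (neg_injective he)

theorem bd_neg {k : ℤ} {T : Finset V} (h : BD k T f) : BD k T (fun x => -f x) := by
  intro x hx
  rw [abs_neg]
  exact h x hx

/-- leaves added to vertices with negative labels -/
theorem padd {T : Finset V} {E : ℤ} (h : PL par v T f) (ho : Opn par v T f E)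
    (hhi : ∀ x ∈ T, f x ≤ E) (Y : Finset V)
    (hY : ∀ z ∈ Y, z ∉ T ∧ z ≠ v ∧ par z ∈ T ∧ f (par z) < 0)
    (hTY : ∀ x ∈ T, x ≠ v → par x ∉ Y) :
    ∃ f', PL par v (T ∪ Y) f' ∧ (∃ o, Opn par v (T ∪ Y) f' o) ∧ (∀ x ∈ T, f' x = f x) ∧
      ∀ k, 0 ≤ k → BD k T f → BD k (T ∪ Y) f' := by
  obtain ⟨g, k1, k2, k3, k4, k5, k6⟩ := nadd (pl_neg h) (opn_neg ho)
    (fun x hx => neg_le_neg (hhi x hx)) Y
    (fun z hz => by
      obtain ⟨h1, h2, h3, h4⟩ := hY z hz
      exact ⟨h1, h2, h3, by show 0 < -f (par z); omega⟩) hTY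
  refine ⟨fun x => -g x, pl_neg k1, ⟨_, opn_neg k2⟩, ?_, ?_⟩
  · intro x hx
    show -g x = f x
    rw [k4 x hx, neg_neg]
  · intro k hk hb
    exact bd_neg (k6 k hk (bd_neg hb))

end Pool.Agent.H92.OL
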