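import Pool.Agent.H92.OL.CaseB

/-!
# At least two children `c2`, `c3` of `u` besides `c` have children: the switch

When all labels are at least `N`, the only open label, and at most `b`, the label of `u`, the vertices
`c2`, `c3` and the vertices of `Z` are added below `N`, in an order such that the integer
`E - f c2`, where `E = f c3` is the last label, is not a label (`nphase`).  Then a child of `c2` gets
this label, with edge sum `E`, a child of `c3` gets the label `-f c2 > b`, and the other children of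
`c2`, `c3` can be added above (`switch`).
-/

namespace Pool.Agent.H92.OL

open Pool.Agent.H67.Lob (sg IsPar)

variable {V : Type} [DecidableEq V]

variable {par : V → V} {v : V} {f : V → ℤ}

/-- a finite set with weights in `[0, m]` has a partition into two parts whose weights differ by at
most `m` -/
theorem partition (Z : Finset V) (y : V → ℤ) (m : ℤ) (hm : 0 ≤ m) :
    (∀ z ∈ Z, 0 ≤ y z ∧ y z ≤ m) →
    ∃ Z1 Z2 : Finset V, Disjoint Z1 Z2 ∧ Z1 ∪ Z2 = Z ∧
      -m ≤ ∑ z ∈ Z1, y z - ∑ z ∈ Z2, y z ∧ ∑ z ∈ Z1, y z - ∑ z ∈ Z2, y z ≤ m := by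
  induction Z using Finset.induction_on with
  | empty =>
    intro _
    refine ⟨∅, ∅, Finset.disjoint_empty_left _, Finset.union_empty _, ?_, ?_⟩
    · rw [Finset.sum_empty]
      linarith
    · rw [Finset.sum_empty]
      linarith
  | insert w Z hwZ ih =>
    intro hy
    obtain ⟨Z1, Z2, h1, h2, h3, h4⟩ := ih fun z hz => hy z (Finset.mem_insert_of_mem hz)
    have hw := hy w (Finset.mem_insert_self _ _)
    have hw1 : w ∉ Z1 := fun h => hwZ (h2 ▸ Finset.mem_union_left _ h)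
    have hw2 : w ∉ Z2 := fun h => hwZ (h2 ▸ Finset.mem_union_right _ h)
    by_cases hd : 0 ≤ ∑ z ∈ Z1, y z - ∑ z ∈ Z2, y z
    · refine ⟨Z1, insert w Z2, ?_, ?_, ?_, ?_⟩
      · rw [Finset.disjoint_insert_right]
        exact ⟨hw1, h1⟩
      · rw [Finset.union_insert, h2]
      · rw [Finset.sum_insert hw2]
        linarith
      · rw [Finset.sum_insert hw2]
        linarith
    · refine ⟨insert w Z1, Z2, ?_, ?_, ?_, ?_⟩
      · rw [Finset.disjoint_insert_left]
        exact ⟨hw2, h1⟩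
      · rw [Finset.insert_union, h2]
      · rw [Finset.sum_insert hw1]
        linarith
      · rw [Finset.sum_insert hw1]
        linarith

theorem sum_erase' {Z : Finset V} {y : V → ℤ} {z0 : V} (h : z0 ∈ Z) :
    ∑ z ∈ Z.erase z0, y z = ∑ z ∈ Z, y z - y z0 := by
  have := Finset.add_sum_erase Z y h
  linarith

/-- a finite set with positive weights at most `g` and at most `a`, or this set without one element,
has a partition into two parts the difference of whose weights is greater than `-a` and less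
than `g` -/
theorem balance (Z : Finset V) (y : V → ℤ) (a g : ℤ) (ha : 0 < a) (hg : 0 < g)
    (hy : ∀ z ∈ Z, 0 < y z ∧ y z ≤ a ∧ y z ≤ g) :
    ∃ Z1 Z2 : Finset V, Disjoint Z1 Z2 ∧ (Z1 ∪ Z2 = Z ∨ ∃ z0 ∈ Z, Z1 ∪ Z2 = Z.erase z0) ∧
      -a < ∑ z ∈ Z1, y z - ∑ z ∈ Z2, y z ∧ ∑ z ∈ Z1, y z - ∑ z ∈ Z2, y z < g := by
  obtain ⟨m, hm⟩ : ∃ m, m = min a g := ⟨_, rfl⟩
  have hma : m ≤ a := by
    rw [hm]
    exact min_le_left _ _
  have hmg : m ≤ g := by
    rw [hm]
    exact min_le_right _ _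
  have hm0 : 0 ≤ m := by
    rw [hm]
    exact le_min ha.le hg.le
  obtain ⟨Z1, Z2, h1, h2, h3, h4⟩ := partition Z y m hm0 fun z hz => by
    obtain ⟨b1, b2, b3⟩ := hy z hz
    refine ⟨b1.le, ?_⟩
    rw [hm]
    exact le_min b2 b3
  obtain ⟨d, hd⟩ : ∃ d, d = ∑ z ∈ Z1, y z - ∑ z ∈ Z2, y z := ⟨_, rfl⟩
  rw [← hd] at h3 h4
  by_cases c1 : -a < d ∧ d < g
  · exact ⟨Z1, Z2, h1, Or.inl h2, by rw [← hd]; exact c1.1, by rw [← hd]; exact c1.2⟩
  · by_cases c2 : -a < -d ∧ -d < g
    · refine ⟨Z2, Z1, h1.symm, Or.inl (by rw [Finset.union_comm, h2]), ?_, ?_⟩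
      · have := c2.1
        linarith
      · have := c2.2
        linarith
    · by_cases c3 : 0 < d
      · -- `d = a = g`
        have hne : Z1.Nonempty := by
          rw [Finset.nonempty_iff_ne_empty]
          intro h5
          rw [h5, Finset.sum_empty] at hd
          have h6 : 0 ≤ ∑ z ∈ Z2, y z := by
            apply Finset.sum_nonneg
            intro z hz
            exact (hy z (h2 ▸ Finset.mem_union_right _ hz)).1.le
          linarith
        obtain ⟨z0, hz0⟩ := hne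
        have hz0Z : z0 ∈ Z := h2 ▸ Finset.mem_union_left _ hz0
        have hz02 : z0 ∉ Z2 := fun h => Finset.disjoint_left.1 h1 hz0 h
        obtain ⟨b1, b2, b3⟩ := hy z0 hz0Z
        refine ⟨Z1.erase z0, Z2, ?_, Or.inr ⟨z0, hz0Z, ?_⟩, ?_, ?_⟩
        · exact Finset.disjoint_of_subset_left (Finset.erase_subset _ _) h1
        · rw [← h2, Finset.erase_union_distrib, Finset.erase_eq_of_notMem hz02]
        · rw [sum_erase' hz0]
          omega
        · rw [sum_erase' hz0]
          omega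
      · by_cases c4 : d = 0
        · exfalso
          apply c1
          rw [c4]
          constructor <;> omega
        · have hne : Z2.Nonempty := by
            rw [Finset.nonempty_iff_ne_empty]
            intro h5
            rw [h5, Finset.sum_empty] at hd
            have h6 : 0 ≤ ∑ z ∈ Z1, y z := by
              apply Finset.sum_nonneg
              intro z hz
              exact (hy z (h2 ▸ Finset.mem_union_left _ hz)).1.le
            omega
          obtain ⟨z0, hz0⟩ := hne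
          have hz0Z : z0 ∈ Z := h2 ▸ Finset.mem_union_right _ hz0
          have hz01 : z0 ∉ Z1 := fun h => Finset.disjoint_left.1 h1 h hz0
          obtain ⟨b1, b2, b3⟩ := hy z0 hz0Z
          refine ⟨Z1, Z2.erase z0, ?_, Or.inr ⟨z0, hz0Z, ?_⟩, ?_, ?_⟩
          · exact Finset.disjoint_of_subset_right (Finset.erase_subset _ _) h1
          · rw [← h2, Finset.erase_union_distrib, Finset.erase_eq_of_notMem hz01]
          · rw [sum_erase' hz0]
            omega
          · rw [sum_erase' hz0]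
            omega

/-- `nadd` with parents in an earlier set `T0` -/
theorem nstep {T0 T : Finset V} {f0 : V → ℤ} {N : ℤ} (h : PL par v T f) (ho : Opn par v T f N)
    (hlo : ∀ x ∈ T, N ≤ f x) (hsub : T0 ⊆ T) (hf : ∀ x ∈ T0, f x = f0 x) (Z : Finset V)
    (hZ : ∀ z ∈ Z, z ∉ T ∧ z ≠ v ∧ par z ∈ T0 ∧ 0 < f0 (par z))
    (hTZ : ∀ x ∈ T, x ≠ v → par x ∉ Z) :
    ∃ f', PL par v (T ∪ Z) f' ∧ Opn par v (T ∪ Z) f' (N - ∑ z ∈ Z, f0 (par z)) ∧
      (∀ x ∈ T ∪ Z, N - ∑ z ∈ Z, f0 (par z) ≤ f' x) ∧ (∀ x ∈ T, f' x = f x) ∧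
      (∀ z ∈ Z, f' z < N) ∧ (∀ w, Z = {w} → f' w = N - ∑ z ∈ Z, f0 (par z)) ∧
      ∀ k, 0 ≤ k → BD k T f → BD k (T ∪ Z) f' := by
  have hZ' : ∀ z ∈ Z, z ∉ T ∧ z ≠ v ∧ par z ∈ T ∧ 0 < f (par z) := by
    intro z hz
    obtain ⟨h1, h2, h3, h4⟩ := hZ z hz
    exact ⟨h1, h2, hsub h3, by rw [hf _ h3]; exact h4⟩
  have hsum : ∑ z ∈ Z, f0 (par z) = ∑ z ∈ Z, f (par z) :=
    Finset.sum_congr rfl fun z hz => (hf _ (hZ z hz).2.2.1).symm
  obtain ⟨f', k1, k2, k3, k4, k5, k6⟩ := nadd h ho hlo Z hZ' hTZ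
  rw [hsum]
  refine ⟨f', k1, k2, k3, k4, k5, ?_, k6⟩
  intro w hw
  have h1 := (hZ' w (by rw [hw]; exact Finset.mem_singleton_self _)).2.2.2
  rw [hw] at k2 ⊢
  rw [nadd_one hlo h1 k2 k4, Finset.sum_singleton]

/-- four consecutive steps -/
theorem stages {T : Finset V} {N : ℤ} (h : PL par v T f) (ho : Opn par v T f N)
    (hlo : ∀ x ∈ T, N ≤ f x) (S1 S2 S3 S4 : Finset V)
    (hZ : ∀ z, (z ∈ S1 ∨ z ∈ S2 ∨ z ∈ S3 ∨ z ∈ S4) → z ∉ T ∧ z ≠ v ∧ par z ∈ T ∧ 0 < f (par z))
    (h12 : Disjoint S1 S2) (h13 : Disjoint S1 S3) (h14 : Disjoint S1 S4) (h23 : Disjoint S2 S3)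
    (h24 : Disjoint S2 S4) (h34 : Disjoint S3 S4)
    (hTZ : ∀ x ∈ T, x ≠ v → par x ∉ S1 ∧ par x ∉ S2 ∧ par x ∉ S3 ∧ par x ∉ S4)
    {s1 s2 s3 s4 : ℤ} (hs1 : s1 = ∑ z ∈ S1, f (par z)) (hs2 : s2 = ∑ z ∈ S2, f (par z))
    (hs3 : s3 = ∑ z ∈ S3, f (par z)) (hs4 : s4 = ∑ z ∈ S4, f (par z)) :
    ∃ f', PL par v (T ∪ S1 ∪ S2 ∪ S3 ∪ S4) f' ∧
      Opn par v (T ∪ S1 ∪ S2 ∪ S3 ∪ S4) f' (N - s1 - s2 - s3 - s4) ∧
      (∀ x ∈ T ∪ S1 ∪ S2 ∪ S3 ∪ S4, N - s1 - s2 - s3 - s4 ≤ f' x) ∧
      (∀ x ∈ T, f' x = f x) ∧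
      (∀ z ∈ S1, N - s1 ≤ f' z ∧ f' z < N) ∧
      (∀ z ∈ S2, N - s1 - s2 ≤ f' z ∧ f' z < N - s1) ∧
      (∀ z ∈ S3, N - s1 - s2 - s3 ≤ f' z ∧ f' z < N - s1 - s2) ∧
      (∀ z ∈ S4, f' z < N - s1 - s2 - s3) ∧
      (∀ w, S1 = {w} → f' w = N - s1) ∧
      (∀ w, S2 = {w} → f' w = N - s1 - s2) ∧
      (∀ w, S3 = {w} → f' w = N - s1 - s2 - s3) ∧
      (∀ w, S4 = {w} → f' w = N - s1 - s2 - s3 - s4) ∧
      ∀ k, 0 ≤ k → BD k T f → BD k (T ∪ S1 ∪ S2 ∪ S3 ∪ S4) f' := by
  have z1 : ∀ z ∈ S1, z ∉ T ∧ z ≠ v ∧ par z ∈ T ∧ 0 < f (par z) := fun z hz => hZ z (Or.inl hz)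
  have z2 : ∀ z ∈ S2, z ∉ T ∧ z ≠ v ∧ par z ∈ T ∧ 0 < f (par z) := fun z hz =>
    hZ z (Or.inr (Or.inl hz))
  have z3 : ∀ z ∈ S3, z ∉ T ∧ z ≠ v ∧ par z ∈ T ∧ 0 < f (par z) := fun z hz =>
    hZ z (Or.inr (Or.inr (Or.inl hz)))
  have z4 : ∀ z ∈ S4, z ∉ T ∧ z ≠ v ∧ par z ∈ T ∧ 0 < f (par z) := fun z hz =>
    hZ z (Or.inr (Or.inr (Or.inr hz)))
  obtain ⟨f1, a1, a2, a3, a4, a5, a6, a7⟩ := nstep h ho hlo (Finset.Subset.refl T)
    (fun _ _ => rfl) S1 z1 (fun x hx hxv => (hTZ x hx hxv).1)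
  rw [← hs1] at a2 a3 a6
  have sub1 : T ⊆ T ∪ S1 := Finset.subset_union_left
  obtain ⟨f2, b1, b2, b3, b4, b5, b6, b7⟩ := nstep a1 a2 a3 sub1
    (fun x hx => a4 x hx) S2
    (fun z hz => by
      obtain ⟨c1, c2, c3, c4⟩ := z2 z hz
      refine ⟨?_, c2, c3, c4⟩
      rw [Finset.mem_union]
      rintro (h5 | h5)
      · exact c1 h5
      · exact Finset.disjoint_left.1 h12 h5 hz)
    (fun x hx hxv hp => by
      rcases Finset.mem_union.1 hx with h5 | h5
      · exact (hTZ x h5 hxv).2.1 hp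
      · exact (z2 _ hp).1 (z1 x h5).2.2.1)
  rw [← hs2] at b2 b3 b6
  have sub2 : T ⊆ T ∪ S1 ∪ S2 := fun x hx => Finset.mem_union_left _ (sub1 hx)
  obtain ⟨f3, d1, d2, d3, d4, d5, d6, d7⟩ := nstep b1 b2 b3 sub2
    (fun x hx => by rw [b4 x (sub1 hx), a4 x hx]) S3
    (fun z hz => by
      obtain ⟨c1, c2, c3, c4⟩ := z3 z hz
      refine ⟨?_, c2, c3, c4⟩
      rw [Finset.mem_union, Finset.mem_union]
      rintro ((h5 | h5) | h5)
      · exact c1 h5
      · exact Finset.disjoint_left.1 h13 h5 hz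
      · exact Finset.disjoint_left.1 h23 h5 hz)
    (fun x hx hxv hp => by
      rw [Finset.mem_union, Finset.mem_union] at hx
      rcases hx with (h5 | h5) | h5
      · exact (hTZ x h5 hxv).2.2.1 hp
      · exact (z3 _ hp).1 (z1 x h5).2.2.1
      · exact (z3 _ hp).1 (z2 x h5).2.2.1)
  rw [← hs3] at d2 d3 d6
  have sub3 : T ⊆ T ∪ S1 ∪ S2 ∪ S3 := fun x hx => Finset.mem_union_left _ (sub2 hx)
  obtain ⟨f4, e1, e2, e3, e4, e5, e6, e7⟩ := nstep d1 d2 d3 sub3
    (fun x hx => by rw [d4 x (sub2 hx), b4 x (sub1 hx), a4 x hx]) S4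
    (fun z hz => by
      obtain ⟨c1, c2, c3, c4⟩ := z4 z hz
      refine ⟨?_, c2, c3, c4⟩
      rw [Finset.mem_union, Finset.mem_union, Finset.mem_union]
      rintro (((h5 | h5) | h5) | h5)
      · exact c1 h5
      · exact Finset.disjoint_left.1 h14 h5 hz
      · exact Finset.disjoint_left.1 h24 h5 hz
      · exact Finset.disjoint_left.1 h34 h5 hz)
    (fun x hx hxv hp => by
      rw [Finset.mem_union, Finset.mem_union, Finset.mem_union] at hx
      rcases hx with ((h5 | h5) | h5) | h5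
      · exact (hTZ x h5 hxv).2.2.2 hp
      · exact (z4 _ hp).1 (z1 x h5).2.2.1
      · exact (z4 _ hp).1 (z2 x h5).2.2.1
      · exact (z4 _ hp).1 (z3 x h5).2.2.1)
  rw [← hs4] at e2 e3 e6
  have hS1 : ∀ z ∈ S1, f4 z = f1 z := by
    intro z hz
    have m1 : z ∈ T ∪ S1 := Finset.mem_union_right _ hz
    have m2 : z ∈ T ∪ S1 ∪ S2 := Finset.mem_union_left _ m1
    have m3 : z ∈ T ∪ S1 ∪ S2 ∪ S3 := Finset.mem_union_left _ m2
    rw [e4 z m3, d4 z m2, b4 z m1]
  have hS2 : ∀ z ∈ S2, f4 z = f2 z := by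
    intro z hz
    have m2 : z ∈ T ∪ S1 ∪ S2 := Finset.mem_union_right _ hz
    have m3 : z ∈ T ∪ S1 ∪ S2 ∪ S3 := Finset.mem_union_left _ m2
    rw [e4 z m3, d4 z m2]
  have hS3 : ∀ z ∈ S3, f4 z = f3 z := by
    intro z hz
    have m3 : z ∈ T ∪ S1 ∪ S2 ∪ S3 := Finset.mem_union_right _ hz
    rw [e4 z m3]
  refine ⟨f4, e1, e2, e3, ?_, ?_, ?_, ?_, ?_, ?_, ?_, ?_, e6, ?_⟩
  · intro x hx
    rw [e4 x (sub3 hx), d4 x (sub2 hx), b4 x (sub1 hx), a4 x hx]
  · intro z hz
    rw [hS1 z hz]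
    exact ⟨a3 z (Finset.mem_union_right _ hz), a5 z hz⟩
  · intro z hz
    rw [hS2 z hz]
    exact ⟨b3 z (Finset.mem_union_right _ hz), b5 z hz⟩
  · intro z hz
    rw [hS3 z hz]
    exact ⟨d3 z (Finset.mem_union_right _ hz), d5 z hz⟩
  · exact e5
  · intro w hw
    rw [hS1 w (by rw [hw]; exact Finset.mem_singleton_self _)]
    exact a6 w hw
  · intro w hw
    rw [hS2 w (by rw [hw]; exact Finset.mem_singleton_self _)]
    exact b6 w hw
  · intro w hw
    rw [hS3 w (by rw [hw]; exact Finset.mem_singleton_self _)]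
    exact d6 w hw
  · intro k hk hb
    exact e7 k hk (d7 k hk (b7 k hk (a7 k hk hb)))

/-- the state before the switch -/
structure Sw (par : V → V) (v : V) (A : Finset V) (f : V → ℤ) (c2 c3 : V) (b E : ℤ) : Prop where
  pl : PL par v A f
  oE : Opn par v A f E
  hi : ∀ x ∈ A, f x ≤ b
  fc3 : f c3 = E
  fc2 : f c2 < -b
  lt : E < f c2
  nx : ∀ x ∈ A, f x ≠ E - f c2

theorem nphase {T Z : Finset V} {u c2 c3 : V} {N b : ℤ} (h : PL par v T f) (ho : Opn par v T f N)
    (hlo : ∀ x ∈ T, N ≤ f x) (hhi : ∀ x ∈ T, f x ≤ b) (huT : u ∈ T) (hfu : f u = b)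
    (hN : N < 0) (hg : 0 < b + N)
    (hZ : ∀ z ∈ Z, z ∉ T ∧ z ≠ v ∧ par z ∈ T ∧ 0 < f (par z))
    (hc2T : c2 ∉ T) (hc2v : c2 ≠ v) (hpc2 : par c2 = u) (hc2Z : c2 ∉ Z)
    (hc3T : c3 ∉ T) (hc3v : c3 ≠ v) (hpc3 : par c3 = u) (hc3Z : c3 ∉ Z) (hcc : c2 ≠ c3)
    (hTZ : ∀ x ∈ T, x ≠ v → par x ∉ Z ∧ par x ≠ c2 ∧ par x ≠ c3) :
    ∃ (Z' A : Finset V) (f' : V → ℤ) (E : ℤ), (Z' = Z ∨ ∃ z0 ∈ Z, Z' = Z.erase z0 ∧ par z0 ≠ u) ∧
      (∀ x, x ∈ A ↔ (x ∈ T ∨ x ∈ Z' ∨ x = c2 ∨ x = c3)) ∧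
      Sw par v A f' c2 c3 b E ∧ (∀ x ∈ T, f' x = f x) ∧ (∀ z ∈ Z', f' z < 0) ∧
      ∀ k, 0 ≤ k → BD k T f → BD k A f' := by
  have hb : 0 < b := by omega
  have hc2' : ∀ z ∈ ({c2} : Finset V), z ∉ T ∧ z ≠ v ∧ par z ∈ T ∧ 0 < f (par z) := by
    intro z hz
    rw [Finset.mem_singleton] at hz
    rw [hz, hpc2, hfu]
    exact ⟨hc2T, hc2v, huT, hb⟩
  have hc3' : ∀ z ∈ ({c3} : Finset V), z ∉ T ∧ z ≠ v ∧ par z ∈ T ∧ 0 < f (par z) := by
    intro z hz
    rw [Finset.mem_singleton] at hz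
    rw [hz, hpc3, hfu]
    exact ⟨hc3T, hc3v, huT, hb⟩
  have sc2 : b = ∑ z ∈ ({c2} : Finset V), f (par z) := by
    rw [Finset.sum_singleton, hpc2, hfu]
  have sc3 : b = ∑ z ∈ ({c3} : Finset V), f (par z) := by
    rw [Finset.sum_singleton, hpc3, hfu]
  have d23 : Disjoint ({c2} : Finset V) {c3} := by
    rw [Finset.disjoint_singleton]
    exact hcc
  have dZ2 : ∀ Z' : Finset V, Z' ⊆ Z → Disjoint Z' {c2} := by
    intro Z' hZ'
    rw [Finset.disjoint_singleton_right]
    exact fun h5 => hc2Z (hZ' h5)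
  have dZ3 : ∀ Z' : Finset V, Z' ⊆ Z → Disjoint Z' {c3} := by
    intro Z' hZ'
    rw [Finset.disjoint_singleton_right]
    exact fun h5 => hc3Z (hZ' h5)
  have hsum0 : ∀ Z' : Finset V, Z' ⊆ Z → 0 ≤ ∑ z ∈ Z', f (par z) := by
    intro Z' hZ'
    apply Finset.sum_nonneg
    intro z hz
    exact (hZ z (hZ' hz)).2.2.2.le
  by_cases ci : ∃ z1 ∈ Z, b + N < f (par z1)
  · obtain ⟨z1, hz1, hz1'⟩ := ci
    have s1Z : ({z1} : Finset V) ⊆ Z := Finset.singleton_subset_iff.2 hz1
    have s2Z : Z.erase z1 ⊆ Z := Finset.erase_subset _ _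
    obtain ⟨s2, hs2⟩ : ∃ s2, s2 = ∑ z ∈ Z.erase z1, f (par z) := ⟨_, rfl⟩
    have hs20 : 0 ≤ s2 := by
      rw [hs2]
      exact hsum0 _ s2Z
    obtain ⟨f', k1, k2, k3, k4, k5, k6, k7, k8, k9, k10, k11, k12, k13⟩ := stages h ho hlo {z1}
      (Z.erase z1) {c2} {c3}
      (fun z hz => by
        rcases hz with h5 | h5 | h5 | h5
        · exact hZ z (s1Z h5)
        · exact hZ z (s2Z h5)
        · exact hc2' z h5
        · exact hc3' z h5)
      (Finset.disjoint_singleton_left.2 (Finset.notMem_erase _ _)) (dZ2 _ s1Z) (dZ3 _ s1Z)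
      (dZ2 _ s2Z) (dZ3 _ s2Z) d23
      (fun x hx hxv => by
        obtain ⟨t1, t2, t3⟩ := hTZ x hx hxv
        exact ⟨fun h5 => t1 (s1Z h5), fun h5 => t1 (s2Z h5),
          fun h5 => t2 (Finset.mem_singleton.1 h5), fun h5 => t3 (Finset.mem_singleton.1 h5)⟩)
      (s1 := f (par z1)) (by rw [Finset.sum_singleton]) hs2 sc2 sc3
    obtain ⟨y, hy⟩ : ∃ y, y = f (par z1) := ⟨_, rfl⟩
    rw [← hy] at hz1' k2 k3 k5 k6 k7 k8 k9 k10 k11 k12
    have q1 := k9 z1 rfl
    have q2 := k11 c2 rfl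
    have q3 := k12 c3 rfl
    refine ⟨Z, _, f', _, Or.inl rfl, ?_, ⟨k1, k2, ?_, q3, by rw [q2]; omega, by rw [q2]; omega, ?_⟩,
      k4, ?_, k13⟩
    · intro x
      rw [Finset.mem_union, Finset.mem_union, Finset.mem_union, Finset.mem_union,
        Finset.mem_singleton, Finset.mem_singleton, Finset.mem_singleton, Finset.mem_erase]
      constructor
      · rintro ((((h5 | h5) | h5) | h5) | h5)
        · exact Or.inl h5
        · exact Or.inr (Or.inl (h5 ▸ hz1))
        · exact Or.inr (Or.inl h5.2)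
        · exact Or.inr (Or.inr (Or.inl h5))
        · exact Or.inr (Or.inr (Or.inr h5))
      · rintro (h5 | h5 | h5 | h5)
        · exact Or.inl (Or.inl (Or.inl (Or.inl h5)))
        · by_cases h6 : x = z1
          · exact Or.inl (Or.inl (Or.inl (Or.inr h6)))
          · exact Or.inl (Or.inl (Or.inr ⟨h6, h5⟩))
        · exact Or.inl (Or.inr h5)
        · exact Or.inr h5
    · intro x hx
      rw [Finset.mem_union, Finset.mem_union, Finset.mem_union, Finset.mem_union] at hx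
      rcases hx with (((h5 | h5) | h5) | h5) | h5
      · rw [k4 x h5]
        exact hhi x h5
      · have := k5 x h5
        omega
      · have := k6 x h5
        omega
      · have := k7 x h5
        omega
      · have := k8 x h5
        omega
    · intro x hx he
      rw [q2] at he
      rw [Finset.mem_union, Finset.mem_union, Finset.mem_union, Finset.mem_union] at hx
      rcases hx with (((h5 | h5) | h5) | h5) | h5
      · rw [k4 x h5] at he
        have := hlo x h5
        omega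
      · rw [Finset.mem_singleton] at h5
        rw [h5, q1] at he
        omega
      · have := k6 x h5
        omega
      · have := k7 x h5
        omega
      · have := k8 x h5
        omega
    · intro z hz
      by_cases h6 : z = z1
      · rw [h6, q1]
        omega
      · have := k6 z (Finset.mem_erase.2 ⟨h6, hz⟩)
        omega
  · by_cases cii : ∃ z1 ∈ Z, -N < f (par z1)
    · obtain ⟨z1, hz1, hz1'⟩ := cii
      have s1Z : ({z1} : Finset V) ⊆ Z := Finset.singleton_subset_iff.2 hz1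
      have s2Z : Z.erase z1 ⊆ Z := Finset.erase_subset _ _
      obtain ⟨s2, hs2⟩ : ∃ s2, s2 = ∑ z ∈ Z.erase z1, f (par z) := ⟨_, rfl⟩
      have hs20 : 0 ≤ s2 := by
        rw [hs2]
        exact hsum0 _ s2Z
      obtain ⟨f', k1, k2, k3, k4, k5, k6, k7, k8, k9, k10, k11, k12, k13⟩ := stages h ho hlo {c2}
        (Z.erase z1) {z1} {c3}
        (fun z hz => by
          rcases hz with h5 | h5 | h5 | h5
          · exact hc2' z h5
          · exact hZ z (s2Z h5)
          · exact hZ z (s1Z h5)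
          · exact hc3' z h5)
        (dZ2 _ s2Z).symm (dZ2 _ s1Z).symm d23
        (Finset.disjoint_singleton_right.2 (Finset.notMem_erase _ _))
        (dZ3 _ s2Z) (dZ3 _ s1Z)
        (fun x hx hxv => by
          obtain ⟨t1, t2, t3⟩ := hTZ x hx hxv
          exact ⟨fun h5 => t2 (Finset.mem_singleton.1 h5), fun h5 => t1 (s2Z h5),
            fun h5 => t1 (s1Z h5), fun h5 => t3 (Finset.mem_singleton.1 h5)⟩)
        (s3 := f (par z1)) sc2 hs2 (by rw [Finset.sum_singleton]) sc3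
      obtain ⟨y, hy⟩ : ∃ y, y = f (par z1) := ⟨_, rfl⟩
      rw [← hy] at hz1' k2 k3 k7 k8 k11 k12
      have q1 := k11 z1 rfl
      have q2 := k9 c2 rfl
      have q3 := k12 c3 rfl
      refine ⟨Z, _, f', _, Or.inl rfl, ?_,
        ⟨k1, k2, ?_, q3, by rw [q2]; omega, by rw [q2]; omega, ?_⟩, k4, ?_, k13⟩
      · intro x
        rw [Finset.mem_union, Finset.mem_union, Finset.mem_union, Finset.mem_union,
          Finset.mem_singleton, Finset.mem_singleton, Finset.mem_singleton, Finset.mem_erase]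
        constructor
        · rintro ((((h5 | h5) | h5) | h5) | h5)
          · exact Or.inl h5
          · exact Or.inr (Or.inr (Or.inl h5))
          · exact Or.inr (Or.inl h5.2)
          · exact Or.inr (Or.inl (h5 ▸ hz1))
          · exact Or.inr (Or.inr (Or.inr h5))
        · rintro (h5 | h5 | h5 | h5)
          · exact Or.inl (Or.inl (Or.inl (Or.inl h5)))
          · by_cases h6 : x = z1
            · exact Or.inl (Or.inr h6)
            · exact Or.inl (Or.inl (Or.inr ⟨h6, h5⟩))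
          · exact Or.inl (Or.inl (Or.inl (Or.inr h5)))
          · exact Or.inr h5
      · intro x hx
        rw [Finset.mem_union, Finset.mem_union, Finset.mem_union, Finset.mem_union] at hx
        rcases hx with (((h5 | h5) | h5) | h5) | h5
        · rw [k4 x h5]
          exact hhi x h5
        · have := k5 x h5
          omega
        · have := k6 x h5
          omega
        · have := k7 x h5
          omega
        · have := k8 x h5
          omega
      · intro x hx he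
        rw [q2] at he
        rw [Finset.mem_union, Finset.mem_union, Finset.mem_union, Finset.mem_union] at hx
        rcases hx with (((h5 | h5) | h5) | h5) | h5
        · rw [k4 x h5] at he
          have := hlo x h5
          omega
        · have := k5 x h5
          omega
        · have := k6 x h5
          omega
        · rw [Finset.mem_singleton] at h5
          rw [h5, q1] at he
          omega
        · have := k8 x h5
          omega
      · intro z hz
        by_cases h6 : z = z1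
        · rw [h6, q1]
          omega
        · have := k6 z (Finset.mem_erase.2 ⟨h6, hz⟩)
          omega
    · obtain ⟨Z1, Z2, hd12, hun, hb1, hb2⟩ := balance Z (fun z => f (par z)) (-N) (b + N)
        (by omega) hg (fun z hz => by
          refine ⟨(hZ z hz).2.2.2, ?_, ?_⟩
          · by_contra h5
            exact cii ⟨z, hz, not_le.1 h5⟩
          · by_contra h5
            exact ci ⟨z, hz, not_le.1 h5⟩)
      have hsubZ : Z1 ∪ Z2 ⊆ Z := by
        rcases hun with h5 | ⟨z0, _, h5⟩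
        · rw [h5]
        · rw [h5]
          exact Finset.erase_subset _ _
      have s1Z : Z1 ⊆ Z := fun x hx => hsubZ (Finset.mem_union_left _ hx)
      have s2Z : Z2 ⊆ Z := fun x hx => hsubZ (Finset.mem_union_right _ hx)
      obtain ⟨s1, hs1⟩ : ∃ s1, s1 = ∑ z ∈ Z1, f (par z) := ⟨_, rfl⟩
      obtain ⟨s2, hs2⟩ : ∃ s2, s2 = ∑ z ∈ Z2, f (par z) := ⟨_, rfl⟩
      rw [← hs1, ← hs2] at hb1 hb2
      have hs10 : 0 ≤ s1 := by
        rw [hs1]
        exact hsum0 _ s1Z
      have hs20 : 0 ≤ s2 := by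
        rw [hs2]
        exact hsum0 _ s2Z
      obtain ⟨f', k1, k2, k3, k4, k5, k6, k7, k8, k9, k10, k11, k12, k13⟩ := stages h ho hlo Z1
        {c2} Z2 {c3}
        (fun z hz => by
          rcases hz with h5 | h5 | h5 | h5
          · exact hZ z (s1Z h5)
          · exact hc2' z h5
          · exact hZ z (s2Z h5)
          · exact hc3' z h5)
        (dZ2 _ s1Z) hd12 (dZ3 _ s1Z) (dZ2 _ s2Z).symm d23 (dZ3 _ s2Z)
        (fun x hx hxv => by
          obtain ⟨t1, t2, t3⟩ := hTZ x hx hxv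
          exact ⟨fun h5 => t1 (s1Z h5), fun h5 => t2 (Finset.mem_singleton.1 h5),
            fun h5 => t1 (s2Z h5), fun h5 => t3 (Finset.mem_singleton.1 h5)⟩)
        hs1 sc2 hs2 sc3
      have q2 := k10 c2 rfl
      have q3 := k12 c3 rfl
      refine ⟨Z1 ∪ Z2, _, f', _, ?_, ?_,
        ⟨k1, k2, ?_, q3, by rw [q2]; omega, by rw [q2]; omega, ?_⟩, k4, ?_, k13⟩
      · rcases hun with h5 | ⟨z0, hz0, h5⟩
        · exact Or.inl h5
        · refine Or.inr ⟨z0, hz0, h5, fun h6 => ?_⟩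
          apply ci
          refine ⟨z0, hz0, ?_⟩
          rw [h6, hfu]
          omega
      · intro x
        rw [Finset.mem_union, Finset.mem_union, Finset.mem_union, Finset.mem_union,
          Finset.mem_singleton, Finset.mem_singleton, Finset.mem_union]
        constructor
        · rintro ((((h5 | h5) | h5) | h5) | h5)
          · exact Or.inl h5
          · exact Or.inr (Or.inl (Or.inl h5))
          · exact Or.inr (Or.inr (Or.inl h5))
          · exact Or.inr (Or.inl (Or.inr h5))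
          · exact Or.inr (Or.inr (Or.inr h5))
        · rintro (h5 | (h5 | h5) | h5 | h5)
          · exact Or.inl (Or.inl (Or.inl (Or.inl h5)))
          · exact Or.inl (Or.inl (Or.inl (Or.inr h5)))
          · exact Or.inl (Or.inr h5)
          · exact Or.inl (Or.inl (Or.inr h5))
          · exact Or.inr h5
      · intro x hx
        rw [Finset.mem_union, Finset.mem_union, Finset.mem_union, Finset.mem_union] at hx
        rcases hx with (((h5 | h5) | h5) | h5) | h5
        · rw [k4 x h5]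
          exact hhi x h5
        · have := k5 x h5
          omega
        · have := k6 x h5
          omega
        · have := k7 x h5
          omega
        · have := k8 x h5
          omega
      · intro x hx he
        rw [q2] at he
        rw [Finset.mem_union, Finset.mem_union, Finset.mem_union, Finset.mem_union] at hx
        rcases hx with (((h5 | h5) | h5) | h5) | h5
        · rw [k4 x h5] at he
          have := hlo x h5
          omega
        · have := k5 x h5
          omega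
        · rw [Finset.mem_singleton] at h5
          rw [h5, q2] at he
          omega
        · have := k7 x h5
          omega
        · have := k8 x h5
          omega
      · intro z hz
        rcases Finset.mem_union.1 hz with h5 | h5
        · have := k5 z h5
          omega
        · have := k7 z h5
          omega

/-- the switch, and the vertices added above -/
theorem switch {A Y : Finset V} {c2 c3 x2 x3 : V} {b E : ℤ} (h : Sw par v A f c2 c3 b E)
    (hb : 0 < b) (hc2 : c2 ∈ A) (hc3 : c3 ∈ A) (hx2 : x2 ∉ A) (hx3 : x3 ∉ A) (hx23 : x3 ≠ x2)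
    (hx2v : x2 ≠ v) (hx3v : x3 ≠ v) (hpx2 : par x2 = c2) (hpx3 : par x3 = c3)
    (hY : ∀ y ∈ Y, y ∉ A ∧ y ≠ v ∧ par y ∈ A ∧ f (par y) < 0 ∧ y ≠ x2 ∧ y ≠ x3)
    (hch : ∀ x, x ≠ v → par x ≠ x2 ∧ par x ≠ x3 ∧ par x ∉ Y) :
    ∃ f', PL par v (insert x3 (insert x2 A) ∪ Y) f' ∧
      (∃ o, Opn par v (insert x3 (insert x2 A) ∪ Y) f' o) ∧ (∀ x ∈ A, f' x = f x) ∧
      ∀ k, 0 ≤ k → BD k A f → BD k (insert x3 (insert x2 A) ∪ Y) f' := by
  have hlt := h.lt
  have hfc2 := h.fc2
  have hfc3 := h.fc3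
  obtain ⟨t, ht⟩ : ∃ t, t = E - f c2 := ⟨_, rfl⟩
  obtain ⟨k1, k2, _⟩ := add_leaf h.pl h.oE hx2 hx2v (by rw [hpx2]; exact hc2)
    (fun x _ hxv => (hch x hxv).1) (t := t) (by rw [hpx2, ht]; ring)
    (fun z hz => by rw [ht]; exact h.nx z hz)
  obtain ⟨f1, hf1⟩ : ∃ f1, f1 = Function.update f x2 t := ⟨_, rfl⟩
  rw [← hf1] at k1 k2
  have hself1 : f1 x2 = t := by
    rw [hf1]
    exact Function.update_self _ _ _
  have hold1 : ∀ x ∈ A, f1 x = f x := by
    intro x hx
    rw [hf1]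
    exact upd_mem hx2 hx
  have hx3A : x3 ∉ insert x2 A := by
    rw [Finset.mem_insert]
    rintro (h5 | h5)
    · exact hx23 h5
    · exact hx3 h5
  have hc3A : c3 ∈ insert x2 A := Finset.mem_insert_of_mem hc3
  have hf1c3 : f1 c3 = E := by rw [hold1 c3 hc3, hfc3]
  have hnew : ∀ z ∈ insert x2 A, f1 z ≠ -f c2 := by
    intro z hz he
    rcases Finset.mem_insert.1 hz with rfl | hz'
    · rw [hself1] at he
      omega
    · rw [hold1 z hz'] at he
      have := h.hi z hz'
      omega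
  obtain ⟨l1, l2, _⟩ := add_leaf k1 k2 hx3A hx3v (by rw [hpx3]; exact hc3A)
    (fun x _ hxv => (hch x hxv).2.1) (t := -f c2) (by rw [hpx3, hf1c3, ht]; ring) hnew
  obtain ⟨f2, hf2⟩ : ∃ f2, f2 = Function.update f1 x3 (-f c2) := ⟨_, rfl⟩
  rw [← hf2] at l1 l2
  have hself2 : f2 x3 = -f c2 := by
    rw [hf2]
    exact Function.update_self _ _ _
  have hold2 : ∀ x ∈ insert x2 A, f2 x = f1 x := by
    intro x hx
    rw [hf2]
    exact upd_mem hx3A hx
  have hold12 : ∀ x ∈ A, f2 x = f x := by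
    intro x hx
    rw [hold2 x (Finset.mem_insert_of_mem hx), hold1 x hx]
  obtain ⟨f3, m1, m2, m3, m4⟩ := padd l1 l2
    (by
      intro x hx
      rcases Finset.mem_insert.1 hx with rfl | hx'
      · rw [hself2]
      · rw [hold2 x hx']
        rcases Finset.mem_insert.1 hx' with rfl | hx''
        · rw [hself1]
          omega
        · rw [hold1 x hx'']
          have := h.hi x hx''
          omega)
    Y
    (fun z hz => by
      obtain ⟨y1, y2, y3, y4, y5, y6⟩ := hY z hz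
      refine ⟨?_, y2, Finset.mem_insert_of_mem (Finset.mem_insert_of_mem y3), ?_⟩
      · rw [Finset.mem_insert, Finset.mem_insert]
        rintro (h5 | h5 | h5)
        · exact y6 h5
        · exact y5 h5
        · exact y1 h5
      · rw [hold12 _ y3]
        exact y4)
    (fun x _ hxv => (hch x hxv).2.2)
  refine ⟨f3, m1, m2, ?_, ?_⟩
  · intro x hx
    rw [m3 x (Finset.mem_insert_of_mem (Finset.mem_insert_of_mem hx)), hold12 x hx]
  · intro k hk hbd
    obtain ⟨zE, hzE, hzE2⟩ := h.oE.mem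
    have b1 : BD k (insert x2 A) f1 := by
      rw [hf1]
      refine bd_add hk hbd hx2 hzE hc2 ?_
      rw [hzE2, ht]
      exact abs_sub_le' _ _
    have b2 : BD k (insert x3 (insert x2 A)) f2 := by
      rw [hf2]
      refine bd_add hk b1 hx3A (Finset.mem_insert_self _ _) hc3A ?_
      rw [hself1, hf1c3]
      have e : -f c2 = t - E := by
        rw [ht]
        ring
      rw [e]
      exact abs_sub_le' _ _
    exact m4 k hk b2

end Pool.Agent.H92.OL
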