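import Pool.Agent.H92.OL.Grow

/-!
# The vertex `u`, the last vertex, and the leaves at the root
-/

namespace Pool.Agent.H92.OL

open Pool.Agent.H67.Lob (sg IsPar)

variable {V : Type} [DecidableEq V]

variable {par : V → V} {v : V} {A : Finset V} {f : V → ℤ} {dep : V → ℕ}

/-- `u` is added when `c` is its only labelled child -/
theorem top_one {T : Finset V} {c u : V} {M P N : ℤ} (hM : 0 ≤ M) (h : Inn par v dep T c M f P N)
    (huT : u ∉ T) (huv : u ≠ v) (hpu : par u = v) (hvT : v ∈ T) (hcT : c ∈ T) (hpc : par c = u)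
    (hchT : ∀ x ∈ T, x ≠ v → par x = u → x = c) :
    ∃ f', PL par v (insert u T) f' ∧ Opn par v (insert u T) f' N ∧
      (∀ x ∈ insert u T, N ≤ f' x) ∧ (∀ x ∈ insert u T, f' x ≤ P + (M + 1)) ∧
      f' u = P + (M + 1) ∧ (∀ x ∈ T, f' x = f x) ∧ BD 2 (insert u T) f' ∧ f' v = 0 := by
  have hhP := h.hP
  have hhN := h.hN
  have hNP : N ≠ P := by omega
  have hnew : ∀ z ∈ T, f z ≠ P + (M + 1) := by
    intro z hz he
    have := h.mx z hz
    omega
  obtain ⟨k1, k2⟩ := add_top h.pl h.oP huT huv hpu h.fv hcT hpc hchT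
    (t := P + (M + 1)) (by rw [h.fc]; ring) hnew
  have hself : Function.update f u (P + (M + 1)) u = P + (M + 1) := Function.update_self _ _ _
  have hold : ∀ x ∈ T, Function.update f u (P + (M + 1)) x = f x := fun x hx => upd_mem huT hx
  obtain ⟨zP, hzP, hzP2⟩ := h.oP.mem
  refine ⟨_, k1, k2 N h.oN hNP, ?_, ?_, hself, hold, ?_, ?_⟩
  · intro x hx
    rcases Finset.mem_insert.1 hx with rfl | hx'
    · rw [hself]
      omega
    · rw [hold x hx']
      exact h.lo x hx'
  · intro x hx
    rcases Finset.mem_insert.1 hx with rfl | hx'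
    · rw [hself]
    · rw [hold x hx']
      have := h.mx x hx'
      omega
  · refine bd_add (by norm_num) h.bd huT hzP hcT ?_
    rw [hzP2, h.fc, abs_neg]
    exact abs_add_le _ _
  · rw [hold v hvT, h.fv]

/-- `u` is added when it has exactly two labelled children `c` and `c'`, and `N + s' = P + s` -/
theorem add_top2 (h : PL par v A f) {u c c' : V} {t P N : ℤ} (hP : Opn par v A f P)
    (hN : Opn par v A f N) (hPN : P ≠ N) (hu : u ∉ A)
    (huv : u ≠ v) (hpu : par u = v) (hfv : f v = 0) (hc : c ∈ A)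
    (hpc : par c = u) (hc' : c' ∈ A) (hpc' : par c' = u) (hcc : c ≠ c')
    (hch : ∀ x ∈ A, x ≠ v → par x = u → x = c ∨ x = c') (htP : t + f c = P)
    (htN : t + f c' = N) (ht : ∀ z ∈ A, f z ≠ t) :
    PL par v (insert u A) (Function.update f u t) ∧
    ∀ o', Opn par v A f o' → o' ≠ P → o' ≠ N →
      Opn par v (insert u A) (Function.update f u t) o' := by
  have hcu : c ≠ u := by
    rintro rfl
    exact hu hc
  have hcu' : c' ≠ u := by
    rintro rfl
    exact hu hc'
  have hsu : sg par (Function.update f u t) u = t := by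
    unfold sg
    rw [Function.update_self, hpu, Function.update_of_ne huv.symm, hfv, add_zero]
  have hsc : sg par (Function.update f u t) c = P := by
    unfold sg
    rw [hpc, Function.update_self, Function.update_of_ne hcu, add_comm, htP]
  have hsc' : sg par (Function.update f u t) c' = N := by
    unfold sg
    rw [hpc', Function.update_self, Function.update_of_ne hcu', add_comm, htN]
  have key : ∀ x ∈ insert u A, x ≠ v → par x ∈ insert u A →
      x = u ∨ x = c ∨ x = c' ∨
        (x ∈ A ∧ par x ∈ A ∧ sg par (Function.update f u t) x = sg par f x) := by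
    intro x hx hxv hpx
    rcases Finset.mem_insert.1 hx with rfl | hx'
    · exact Or.inl rfl
    · right
      by_cases hxc : x = c
      · exact Or.inl hxc
      · by_cases hxc' : x = c'
        · exact Or.inr (Or.inl hxc')
        · refine Or.inr (Or.inr ?_)
          have h1 : par x ≠ u := fun h1 => by
            rcases hch x hx' hxv h1 with h2 | h2
            · exact hxc h2
            · exact hxc' h2
          have h2 : par x ∈ A := (Finset.mem_insert.1 hpx).resolve_left h1
          have h3 : x ≠ u := by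
            rintro rfl
            exact hu hx'
          exact ⟨hx', h2, sg_update h3 h1⟩
  obtain ⟨zP, hzP, hzP2⟩ := hP.mem
  obtain ⟨zN, hzN, hzN2⟩ := hN.mem
  have hPt : P ≠ t := by
    rw [← hzP2]
    exact ht zP hzP
  have hNt : N ≠ t := by
    rw [← hzN2]
    exact ht zN hzN
  have hns : ∀ x ∈ A, x ≠ v → par x ∈ A → sg par f x ≠ t := by
    intro x hx hxv hpx
    obtain ⟨z, hz, hz2⟩ := h.sub x hx hxv hpx
    rw [← hz2]
    exact ht z hz
  refine ⟨⟨upd_inj h hu ht, ?_, ?_⟩, ?_⟩
  · intro x hx hxv hpx y hy hyv hpy he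
    rcases key x hx hxv hpx with rfl | rfl | rfl | ⟨a1, a2, a3⟩
    · rcases key y hy hyv hpy with rfl | rfl | rfl | ⟨b1, b2, b3⟩
      · rfl
      · rw [hsu, hsc] at he
        exact absurd he.symm hPt
      · rw [hsu, hsc'] at he
        exact absurd he.symm hNt
      · rw [hsu, b3] at he
        exact absurd he.symm (hns y b1 hyv b2)
    · rcases key y hy hyv hpy with rfl | rfl | rfl | ⟨b1, b2, b3⟩
      · rw [hsu, hsc] at he
        exact absurd he hPt
      · rfl
      · rw [hsc, hsc'] at he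
        exact absurd he hPN
      · rw [hsc, b3] at he
        exact absurd he.symm (hP.ns y b1 hyv b2)
    · rcases key y hy hyv hpy with rfl | rfl | rfl | ⟨b1, b2, b3⟩
      · rw [hsu, hsc'] at he
        exact absurd he hNt
      · rw [hsc, hsc'] at he
        exact absurd he.symm hPN
      · rfl
      · rw [hsc', b3] at he
        exact absurd he.symm (hN.ns y b1 hyv b2)
    · rcases key y hy hyv hpy with rfl | rfl | rfl | ⟨b1, b2, b3⟩
      · rw [hsu, a3] at he
        exact absurd he (hns x a1 hxv a2)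
      · rw [hsc, a3] at he
        exact absurd he (hP.ns x a1 hxv a2)
      · rw [hsc', a3] at he
        exact absurd he (hN.ns x a1 hxv a2)
      · rw [a3, b3] at he
        exact h.injs x a1 hxv a2 y b1 hyv b2 he
  · intro x hx hxv hpx
    rcases key x hx hxv hpx with rfl | rfl | rfl | ⟨a1, a2, a3⟩
    · exact ⟨x, Finset.mem_insert_self _ _, by rw [hsu, Function.update_self]⟩
    · exact ⟨zP, Finset.mem_insert_of_mem hzP, by rw [upd_mem hu hzP, hsc, hzP2]⟩
    · exact ⟨zN, Finset.mem_insert_of_mem hzN, by rw [upd_mem hu hzN, hsc', hzN2]⟩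
    · obtain ⟨z, hz, hz2⟩ := h.sub x a1 hxv a2
      exact ⟨z, Finset.mem_insert_of_mem hz, by rw [upd_mem hu hz, a3, hz2]⟩
  · intro o' ho' hneP hneN
    refine ⟨?_, ?_⟩
    · obtain ⟨z, hz, hz2⟩ := ho'.mem
      exact ⟨z, Finset.mem_insert_of_mem hz, by rw [upd_mem hu hz, hz2]⟩
    · intro x hx hxv hpx
      rcases key x hx hxv hpx with rfl | rfl | rfl | ⟨a1, a2, a3⟩
      · rw [hsu]
        obtain ⟨z, hz, hz2⟩ := ho'.mem
        rw [← hz2]
        exact (ht z hz).symm
      · rw [hsc]
        exact hneP.symm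
      · rw [hsc']
        exact hneN.symm
      · rw [a3]
        exact ho'.ns x a1 hxv a2

/-- a set `A` closed under `par` with labels bounded; the sums are distinct and are labels -/
structure Out (par : V → V) (v : V) (A : Finset V) (f : V → ℤ) : Prop where
  vA : v ∈ A
  cl : ∀ x ∈ A, x ≠ v → par x ∈ A
  injs : ∀ x ∈ A, x ≠ v → ∀ y ∈ A, y ≠ v → sg par f x = sg par f y → x = y
  sub : ∀ x ∈ A, x ≠ v → ∃ z ∈ A, f z = sg par f x
  fv : f v = 0
  bd : BD 3 A f

omit [DecidableEq V] in
theorem out_of_PL (h : PL par v A f) (hvA : v ∈ A) (hcl : ∀ x ∈ A, x ≠ v → par x ∈ A)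
    (hfv : f v = 0) (hbd : BD 3 A f) : Out par v A f :=
  ⟨hvA, hcl, fun x hx hxv y hy hyv he => h.injs x hx hxv (hcl x hx hxv) y hy hyv (hcl y hy hyv) he,
    fun x hx hxv => h.sub x hx hxv (hcl x hx hxv), hfv, hbd⟩

/-- a last leaf `w` is added anywhere (except at the root); its label may be an old one -/
theorem add_last {o : ℤ} {w : V} (h : PL par v A f) (ho : Opn par v A f o) (hvA : v ∈ A)
    (hcl : ∀ x ∈ A, x ≠ v → par x ∈ A) (hfv : f v = 0) (hbd : BD 3 A f)
    (hw : w ∉ A) (hpw : par w ∈ A) :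
    Out par v (insert w A) (Function.update f w (o - f (par w))) := by
  have hwv : w ≠ v := by
    rintro rfl
    exact hw hvA
  have hpne : par w ≠ w := by
    intro h1
    rw [h1] at hpw
    exact hw hpw
  have hsw : sg par (Function.update f w (o - f (par w))) w = o := by
    unfold sg
    rw [Function.update_self, Function.update_of_ne hpne]
    ring
  have key : ∀ x ∈ A, x ≠ v → sg par (Function.update f w (o - f (par w))) x = sg par f x := by
    intro x hx hxv
    have h1 : par x ∈ A := hcl x hx hxv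
    refine sg_update ?_ ?_
    · rintro rfl
      exact hw hx
    · intro h2
      rw [h2] at h1
      exact hw h1
  obtain ⟨zo, hzo, hzo2⟩ := ho.mem
  refine ⟨Finset.mem_insert_of_mem hvA, ?_, ?_, ?_, ?_, ?_⟩
  · intro x hx hxv
    rcases Finset.mem_insert.1 hx with rfl | hx'
    · exact Finset.mem_insert_of_mem hpw
    · exact Finset.mem_insert_of_mem (hcl x hx' hxv)
  · intro x hx hxv y hy hyv he
    rcases Finset.mem_insert.1 hx with rfl | hx'
    · rcases Finset.mem_insert.1 hy with rfl | hy'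
      · rfl
      · rw [hsw, key y hy' hyv] at he
        exact absurd he.symm (ho.ns y hy' hyv (hcl y hy' hyv))
    · rcases Finset.mem_insert.1 hy with rfl | hy'
      · rw [hsw, key x hx' hxv] at he
        exact absurd he (ho.ns x hx' hxv (hcl x hx' hxv))
      · rw [key x hx' hxv, key y hy' hyv] at he
        exact h.injs x hx' hxv (hcl x hx' hxv) y hy' hyv (hcl y hy' hyv) he
  · intro x hx hxv
    rcases Finset.mem_insert.1 hx with rfl | hx'
    · exact ⟨zo, Finset.mem_insert_of_mem hzo, by rw [upd_mem hw hzo, hsw, hzo2]⟩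
    · obtain ⟨z, hz, hz2⟩ := h.sub x hx' hxv (hcl x hx' hxv)
      exact ⟨z, Finset.mem_insert_of_mem hz, by rw [upd_mem hw hz, key x hx' hxv, hz2]⟩
  · rw [Function.update_of_ne hwv.symm, hfv]
  · refine bd_add (by norm_num) hbd hw hzo hpw ?_
    rw [hzo2]
    exact abs_sub_le' _ _

/-- the leaves `L` at the root get the residues that are not edge sums -/
theorem fin_step [Fintype V] (hO : Out par v A f) (L : Finset V)
    (hAL : ∀ x, x ∈ A ↔ x ∉ L) (hL : ∀ x ∈ L, par x = v)
    (hA3 : 3 ≤ A.card) (hLA : 2 ^ A.card ≤ L.card) :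
    ∃ F : V → ZMod (Fintype.card V - 1), Function.Surjective F ∧
      ∀ x y, x ≠ v → y ≠ v → F x + F (par x) = F y + F (par y) → x = y := by
  have hLc : A = Lᶜ := by
    ext x
    rw [hAL, Finset.mem_compl]
  have hcAL : A.card + L.card = Fintype.card V := by
    rw [hLc, Finset.card_compl]
    have := Finset.card_le_univ L
    omega
  obtain ⟨M, hMdef⟩ : ∃ M : ℤ, M = (3 * 2 ^ A.card) / 8 := ⟨_, rfl⟩
  have hMb : ∀ x ∈ A, |f x| ≤ M := by
    intro x hx
    have h1 := hO.bd x hx
    rw [hMdef]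
    omega
  have hM : 2 * (M + 1) ≤ (Fintype.card V : ℤ) := by
    have h1 : (2 : ℤ) ^ A.card ≤ (L.card : ℤ) := by exact_mod_cast hLA
    have h2 : (A.card : ℤ) + L.card = (Fintype.card V : ℤ) := by exact_mod_cast hcAL
    have h3 : (3 : ℤ) ≤ A.card := by exact_mod_cast hA3
    rw [hMdef]
    omega
  have hM0 : 0 ≤ M := le_trans (abs_nonneg _) (hMb v hO.vA)
  obtain ⟨q, hq⟩ : ∃ q, q = Fintype.card V - 1 := ⟨_, rfl⟩
  rw [← hq]
  have hqV : Fintype.card V = q + 1 := by omega
  have hqM : 2 * M + 1 ≤ (q : ℤ) := by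
    rw [hqV] at hM
    push_cast at hM
    omega
  have hq0 : 0 < q := by omega
  have : NeZero q := ⟨hq0.ne'⟩
  -- small integers are determined by their residues
  have hcast : ∀ a b : ℤ, |a| ≤ M → |b| ≤ M → (a : ZMod q) = (b : ZMod q) → a = b := by
    intro a b ha hb he
    rw [ZMod.intCast_eq_intCast_iff_dvd_sub] at he
    have h1 := abs_le.1 ha
    have h2 := abs_le.1 hb
    have h3 : b - a = 0 := by
      apply Int.eq_zero_of_abs_lt_dvd he
      rw [abs_lt]
      constructor <;> omega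
    omega
  have hvA : v ∈ A := hO.vA
  have hvL : v ∉ L := (hAL v).1 hvA
  have hsb : ∀ x ∈ A, x ≠ v → |sg par f x| ≤ M := by
    intro x hx hxv
    obtain ⟨z, hz, hz2⟩ := hO.sub x hx hxv
    rw [← hz2]
    exact hMb z hz
  have hinj : Set.InjOn (fun x => ((sg par f x : ℤ) : ZMod q)) (A.erase v) := by
    intro x hx y hy he
    rw [Finset.mem_coe, Finset.mem_erase] at hx hy
    have h1 := hcast _ _ (hsb x hx.2 hx.1) (hsb y hy.2 hy.1) he
    exact hO.injs x hx.2 hx.1 y hy.2 hy.1 h1
  set Sg : Finset (ZMod q) := (A.erase v).image (fun x => ((sg par f x : ℤ) : ZMod q)) with hSg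
  have hcS : Sg.card = A.card - 1 := by
    rw [hSg, Finset.card_image_of_injOn hinj, Finset.card_erase_of_mem hvA]
  have hcard : L.card = (Sgᶜ).card := by
    rw [Finset.card_compl, ZMod.card, hcS]
    omega
  let e : L ≃ (Sgᶜ : Finset (ZMod q)) := Finset.equivOfCardEq hcard
  obtain ⟨F, hFL, hFA⟩ : ∃ F : V → ZMod q, (∀ x (h : x ∈ L), F x = (e ⟨x, h⟩ : ZMod q)) ∧
      ∀ x, x ∉ L → F x = ((f x : ℤ) : ZMod q) := by
    refine ⟨fun x => if h : x ∈ L then (e ⟨x, h⟩ : ZMod q) else ((f x : ℤ) : ZMod q), ?_, ?_⟩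
    · intro x h
      exact dif_pos h
    · intro x h
      exact dif_neg h
  have hFv : F v = 0 := by
    rw [hFA v hvL, hO.fv, Int.cast_zero]
  have hsL : ∀ x (h : x ∈ L), F x + F (par x) = (e ⟨x, h⟩ : ZMod q) := by
    intro x h
    rw [hL x h, hFv, add_zero, hFL x h]
  have hsA : ∀ x ∈ A, x ≠ v → F x + F (par x) = ((sg par f x : ℤ) : ZMod q) := by
    intro x hx hxv
    have h1 : par x ∉ L := (hAL _).1 (hO.cl x hx hxv)
    rw [hFA x ((hAL x).1 hx), hFA _ h1]
    unfold sg
    rw [Int.cast_add]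
  have hmem : ∀ x ∈ A, x ≠ v → F x + F (par x) ∈ Sg := by
    intro x hx hxv
    rw [hsA x hx hxv, hSg]
    exact Finset.mem_image.2 ⟨x, Finset.mem_erase.2 ⟨hxv, hx⟩, rfl⟩
  have hnmem : ∀ x (_ : x ∈ L), F x + F (par x) ∉ Sg := by
    intro x h
    rw [hsL x h]
    exact Finset.mem_compl.1 (e ⟨x, h⟩).2
  refine ⟨F, ?_, ?_⟩
  · intro y
    by_cases hy : y ∈ Sg
    · rw [hSg] at hy
      obtain ⟨x, hx, hx2⟩ := Finset.mem_image.1 hy
      rw [Finset.mem_erase] at hx
      obtain ⟨z, hz, hz2⟩ := hO.sub x hx.2 hx.1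
      refine ⟨z, ?_⟩
      rw [hFA z ((hAL z).1 hz), hz2]
      exact hx2
    · have h1 : y ∈ Sgᶜ := Finset.mem_compl.2 hy
      refine ⟨(e.symm ⟨y, h1⟩ : V), ?_⟩
      rw [hFL _ (e.symm ⟨y, h1⟩).2]
      simp
  · intro x y hxv hyv he
    by_cases hx : x ∈ L
    · by_cases hy : y ∈ L
      · rw [hsL x hx, hsL y hy] at he
        have h1 := e.injective (Subtype.ext he)
        exact congrArg Subtype.val h1
      · exfalso
        apply hnmem x hx
        rw [he]
        exact hmem y ((hAL y).2 hy) hyv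
    · by_cases hy : y ∈ L
      · exfalso
        apply hnmem y hy
        rw [← he]
        exact hmem x ((hAL x).2 hx) hxv
      · have hx' := (hAL x).2 hx
        have hy' := (hAL y).2 hy
        rw [hsA x hx' hxv, hsA y hy' hyv] at he
        exact hinj (by rw [Finset.mem_coe, Finset.mem_erase]; exact ⟨hxv, hx'⟩)
          (by rw [Finset.mem_coe, Finset.mem_erase]; exact ⟨hyv, hy'⟩) he

/-- the tree, rooted at `v`, as seen by its parent function: `L` the leaves at `v`, `u` a neighbour of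
`v`, `c` a child of `u`, `U` the other neighbours of `v`, and the descendants of `u` at distance two
from `u` which are not children of `c` have no children -/
structure Setup (par : V → V) (dep : V → ℕ) (v u c : V) (L U : Finset V) : Prop where
  hd0 : dep v = 0
  hdep : ∀ x, x ≠ v → dep x = dep (par x) + 1
  huv : u ≠ v
  hpu : par u = v
  hcv : c ≠ v
  hpc : par c = u
  hL : ∀ x ∈ L, x ≠ v ∧ par x = v ∧ ∀ z, z ≠ v → par z ≠ x
  huL : u ∉ L
  hU : ∀ x, x ∈ U ↔ (x ≠ v ∧ par x = v ∧ x ∉ L ∧ x ≠ u)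
  hst : ∀ x, x ≠ v → par x = u → x ≠ c → ∀ y, y ≠ v → par y = x → ∀ z, z ≠ v → par z ≠ y

/-- the final step for a labelled set that is the complement of the leaves at `v` -/
theorem finish_all [Fintype V] {u c : V} {L U : Finset V} (hs : Setup par dep v u c L U)
    (h : PL par v A f) (hAL : ∀ x, x ∈ A ↔ x ∉ L) (hfv : f v = 0) (hbd : BD 3 A f)
    (hA3 : 3 ≤ A.card) (hLA : 2 ^ A.card ≤ L.card) :
    ∃ F : V → ZMod (Fintype.card V - 1), Function.Surjective F ∧
      ∀ x y, x ≠ v → y ≠ v → F x + F (par x) = F y + F (par y) → x = y := by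
  have hvA : v ∈ A := (hAL v).2 fun hv => (hs.hL v hv).1 rfl
  have hcl : ∀ x ∈ A, x ≠ v → par x ∈ A := by
    intro x _ hxv
    rw [hAL]
    exact fun h5 => (hs.hL _ h5).2.2 x hxv rfl
  exact fin_step (out_of_PL h hvA hcl hfv hbd) L hAL (fun x hx => (hs.hL x hx).2.1) hA3 hLA

/-- the final step for a labelled set that is the complement of the leaves at `v` and of one more
vertex `w` without children -/
theorem finish_last [Fintype V] {u c w : V} {o : ℤ} {L U : Finset V}
    (hs : Setup par dep v u c L U)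
    (h : PL par v A f) (ho : Opn par v A f o) (hAL : ∀ x, x ∈ A ↔ (x ∉ L ∧ x ≠ w)) (hwL : w ∉ L)
    (hwv : w ≠ v) (hw : ∀ z, z ≠ v → par z ≠ w) (hfv : f v = 0) (hbd : BD 3 A f)
    (hA3 : 3 ≤ A.card) (hLA : 2 ^ (A.card + 1) ≤ L.card) :
    ∃ F : V → ZMod (Fintype.card V - 1), Function.Surjective F ∧
      ∀ x y, x ≠ v → y ≠ v → F x + F (par x) = F y + F (par y) → x = y := by
  have hvA : v ∈ A := (hAL v).2 ⟨fun hv => (hs.hL v hv).1 rfl, hwv.symm⟩
  have hcl : ∀ x ∈ A, x ≠ v → par x ∈ A := by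
    intro x _ hxv
    rw [hAL]
    exact ⟨fun h5 => (hs.hL _ h5).2.2 x hxv rfl, hw x hxv⟩
  have hwA : w ∉ A := by
    rw [hAL]
    exact fun h5 => h5.2 rfl
  have hpw : par w ∈ A := by
    rw [hAL]
    exact ⟨fun h5 => (hs.hL _ h5).2.2 w hwv rfl, hw w hwv⟩
  have hO := add_last h ho hvA hcl hfv hbd hwA hpw
  refine fin_step hO L ?_ (fun x hx => (hs.hL x hx).2.1) ?_ ?_
  · intro x
    rw [Finset.mem_insert, hAL]
    constructor
    · rintro (rfl | h5)
      · exact hwL
      · exact h5.1
    · intro h5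
      by_cases hxw : x = w
      · exact Or.inl hxw
      · exact Or.inr ⟨h5, hxw⟩
  · rw [Finset.card_insert_of_notMem hwA]
    omega
  · rw [Finset.card_insert_of_notMem hwA]
    exact hLA

end Pool.Agent.H92.OL
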